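import Pool.Agent.H85G.Gauss
import Pool.Agent.H818R2.Base

/-! The volume of the unit ball through Gaussian integrals. -/

open MeasureTheory Metric Set Filter
open scoped Topology ENNReal RealInnerProductSpace
open Pool.Agent.H818R2

namespace Pool.Agent.H85G

variable {n : ℕ}

/-- `(2 π e / n)^(n/2)` -/
noncomputable def bb (n : ℕ) : ℝ := (2 * Real.pi * (1 / n)) ^ ((n : ℝ) / 2) * Real.exp ((n : ℝ) / 2)

lemma bb_pos (hn : 0 < n) : 0 < bb n := by
  have : (0 : ℝ) < n := by exact_mod_cast hn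
  unfold bb; positivity

lemma sq_inv_sqrt (hn : 0 < n) : (1 / √(n : ℝ)) ^ 2 = 1 / n := by
  rw [div_pow, one_pow, Real.sq_sqrt (Nat.cast_nonneg n)]

lemma vb_le (hn : 0 < n) : vb (V n) ≤ bb n := by
  have hn0 : (0 : ℝ) < n := by exact_mod_cast hn
  have hs : 0 < 1 / √(n : ℝ) := by positivity
  have h1 := vol_le_noise (n := n) hs (measurableSet_ball (x := (0 : V n)) (ε := 1)) (R2 := 1)
    (fun z hz => by
      rw [mem_ball_zero_iff] at hz
      have := norm_nonneg z
      nlinarith)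
  have h2 := h1.trans (mul_le_mul_right (noise_le_one hs _) _)
  rw [mul_one, sq_inv_sqrt hn] at h2
  unfold vb
  rw [measureReal_def]
  refine ENNReal.toReal_le_of_le_ofReal (bb_pos hn).le (h2.trans (le_of_eq ?_))
  unfold bb
  congr 3
  field_simp

lemma le_vb (hn : 0 < n) : bb n ≤ 3 * n * vb (V n) := by
  have hn0 : (0 : ℝ) < n := by exact_mod_cast hn
  have hn1 : (1 : ℝ) ≤ n := by exact_mod_cast hn
  have : Nontrivial (V n) := by
    have : Nonempty (Fin n) := ⟨⟨0, hn⟩⟩
    infer_instance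
  have h1 := GaussianFourier.integral_rexp_neg_mul_sq_norm (V := V n)
    (show (0 : ℝ) < n / 2 by positivity)
  have h2 := integral_fun_norm_addHaar (volume : Measure (V n))
    (fun r : ℝ => Real.exp (-((n : ℝ) / 2) * r ^ 2))
  rw [finrank_euclideanSpace_fin] at h1 h2
  rw [h1] at h2
  have e1 : Real.pi / ((n : ℝ) / 2) = 2 * Real.pi * (1 / n) := by field_simp
  rw [e1, nsmul_eq_mul, smul_eq_mul] at h2
  have h3 : ∫ y in Ioi (0 : ℝ), y ^ (n - 1) • Real.exp (-((n : ℝ) / 2) * y ^ 2) ≤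
      ∫ y in Ioi (0 : ℝ), Real.exp (-(((n : ℝ) - 1) / 2)) * Real.exp (-(1 / 2) * y ^ 2) := by
    apply integral_mono_of_nonneg
    · filter_upwards [ae_restrict_mem measurableSet_Ioi] with y hy
      have hy0 : (0 : ℝ) < y := hy
      simp only [smul_eq_mul, Pi.zero_apply]
      positivity
    · apply Integrable.const_mul
      exact (integrable_exp_neg_mul_sq (by norm_num : (0 : ℝ) < 1 / 2)).integrableOn
    · filter_upwards [ae_restrict_mem measurableSet_Ioi] with y hy
      have hy0 : (0 : ℝ) < y := hy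
      simp only [smul_eq_mul]
      have h4 : y ≤ Real.exp ((y ^ 2 - 1) / 2) := by
        have := Real.add_one_le_exp ((y ^ 2 - 1) / 2)
        nlinarith [sq_nonneg (y - 1)]
      have h5 : y ^ (n - 1) ≤ Real.exp ((y ^ 2 - 1) / 2) ^ (n - 1) :=
        pow_le_pow_left₀ hy0.le h4 _
      rw [← Real.exp_nat_mul] at h5
      refine (mul_le_mul_of_nonneg_right h5 (Real.exp_pos _).le).trans (le_of_eq ?_)
      rw [← Real.exp_add, ← Real.exp_add]
      congr 1
      rw [Nat.cast_sub (by omega : 1 ≤ n)]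
      push_cast
      ring
  rw [integral_const_mul, integral_gaussian_Ioi] at h3
  have e2 : Real.pi / (1 / 2) = 2 * Real.pi := by field_simp
  rw [e2] at h3
  have h6 : (2 * Real.pi * (1 / n)) ^ ((n : ℝ) / 2) ≤
      n * (vb (V n) * (Real.exp (-(((n : ℝ) - 1) / 2)) * (√(2 * Real.pi) / 2))) := by
    rw [h2]
    apply mul_le_mul_of_nonneg_left _ hn0.le
    exact mul_le_mul_of_nonneg_left h3 (vb_pos (E := V n)).le
  unfold bb
  have h7 : √(2 * Real.pi) / 2 ≤ 13 / 10 := by
    have : √(2 * Real.pi) ≤ 26 / 10 := by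
      rw [Real.sqrt_le_left (by norm_num)]
      have := Real.pi_lt_d2
      linarith
    linarith
  have h8 : Real.exp (1 / 2) ≤ 17 / 10 := by
    have h9 := Real.exp_one_lt_d9
    have h10 : Real.exp (1 / 2) ^ 2 = Real.exp 1 := by
      rw [← Real.exp_nat_mul]; norm_num
    by_contra hcon
    push Not at hcon
    nlinarith
  have hvb := (vb_pos (E := V n))
  calc (2 * Real.pi * (1 / n)) ^ ((n : ℝ) / 2) * Real.exp ((n : ℝ) / 2)
      ≤ n * (vb (V n) * (Real.exp (-(((n : ℝ) - 1) / 2)) * (√(2 * Real.pi) / 2))) *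
        Real.exp ((n : ℝ) / 2) := mul_le_mul_of_nonneg_right h6 (Real.exp_pos _).le
    _ = n * vb (V n) * ((Real.exp (-(((n : ℝ) - 1) / 2)) * Real.exp ((n : ℝ) / 2)) *
        (√(2 * Real.pi) / 2)) := by ring
    _ = n * vb (V n) * (Real.exp (1 / 2) * (√(2 * Real.pi) / 2)) := by
        rw [← Real.exp_add]; congr 3; ring_nf
    _ ≤ n * vb (V n) * 3 := by
        apply mul_le_mul_of_nonneg_left _ (by positivity)
        have h11 : Real.exp (1 / 2) * (√(2 * Real.pi) / 2) ≤ 17 / 10 * (13 / 10) :=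
          mul_le_mul h8 h7 (by positivity) (by norm_num)
        linarith
    _ = 3 * n * vb (V n) := by ring

end Pool.Agent.H85G
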