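import Pool.Agent.H818R2.KissDefs
import Pool.Agent.H818R2.Sph
import Pool.Agent.TH774.MK.Avg

/-! A code is bounded below through the volume of the union of the caps of another code:
replacement of a part of a rotated optimal code, and averaging over the rotations. -/

open MeasureTheory Metric Set Filter
open scoped Topology ENNReal InnerProductSpace
open Pool.Agent.H818R2
open Pool.Agent.Results.MP_b62b68_gt.NoSymmetrization (O haarO col col_orthonormal)
open Pool.Agent.TH774.MK (act act_mul act_single inner_act norm_act exists_col ball_average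
  measurable_act)

namespace Pool.Agent.H85G

variable {n : ℕ}

/-- the open cone of the vectors with an angle `< θ` to some element of `I` -/
def nbh (θ : ℝ) (I : Finset (EuclideanSpace ℝ (Fin n))) : Set (EuclideanSpace ℝ (Fin n)) :=
  {y | ∃ x ∈ I, Real.cos θ * ‖y‖ < ⟪x, y⟫_ℝ}

lemma measurableSet_nbh (θ : ℝ) (I : Finset (EuclideanSpace ℝ (Fin n))) :
    MeasurableSet (nbh θ I) := by
  have : nbh θ I = ⋃ x ∈ I, {y | Real.cos θ * ‖y‖ < ⟪x, y⟫_ℝ} := by
    ext z; simp [nbh]
  rw [this]
  refine Finset.measurableSet_biUnion _ fun y _ => ?_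
  exact (isOpen_lt (continuous_const.mul continuous_norm)
    (continuous_const.inner continuous_id)).measurableSet

lemma nbh_smul (θ : ℝ) (I : Finset (EuclideanSpace ℝ (Fin n))) {r : ℝ} (hr : 0 < r)
    (y : EuclideanSpace ℝ (Fin n)) : r • y ∈ nbh θ I ↔ y ∈ nbh θ I := by
  change (∃ x ∈ I, Real.cos θ * ‖r • y‖ < ⟪x, r • y⟫_ℝ) ↔ ∃ x ∈ I, Real.cos θ * ‖y‖ < ⟪x, y⟫_ℝ
  constructor
  · rintro ⟨x, hx, h⟩
    refine ⟨x, hx, ?_⟩
    rw [norm_smul, Real.norm_of_nonneg hr.le, inner_smul_right] at h
    have : r * (Real.cos θ * ‖y‖) < r * ⟪x, y⟫_ℝ := by linarith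
    exact lt_of_mul_lt_mul_left this hr.le
  · rintro ⟨x, hx, h⟩
    refine ⟨x, hx, ?_⟩
    rw [norm_smul, Real.norm_of_nonneg hr.le, inner_smul_right]
    have := mul_lt_mul_of_pos_left h hr
    linarith

open Classical in
lemma per_rotation [NeZero n] {θ : ℝ} (hs : 0 < Real.sin (θ / 2)) (hθ : Real.cos θ < 1)
    {D I : Finset (EuclideanSpace ℝ (Fin n))} (hD : IsSphCode n θ D) (hDc : D.card = sphMax n θ)
    (hI : IsSphCode n θ I) (g : O n) :
    I.card ≤ (D.filter fun y => act g y ∈ nbh θ I).card := by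
  have hinj : Function.Injective (act g) := by
    intro u v huv
    have h1 : act g (u - v) = 0 := by rw [map_sub, huv, sub_self]
    have h2 := norm_act g (u - v)
    rw [h1, norm_zero] at h2
    exact sub_eq_zero.1 (norm_eq_zero.1 h2.symm)
  set A : Finset (EuclideanSpace ℝ (Fin n)) :=
    (D.filter fun y => act g y ∉ nbh θ I).image (act g) with hA
  have hAc : A.card = (D.filter fun y => act g y ∉ nbh θ I).card :=
    Finset.card_image_of_injective _ hinj
  have hcross : ∀ u ∈ A, ∀ v ∈ I, ⟪v, u⟫_ℝ ≤ Real.cos θ := by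
    intro u hu v hv
    obtain ⟨y, hy, rfl⟩ := Finset.mem_image.1 hu
    obtain ⟨hyD, hyN⟩ := Finset.mem_filter.1 hy
    by_contra hcon
    push Not at hcon
    apply hyN
    refine ⟨v, hv, ?_⟩
    rw [norm_act, hD.1 y hyD, mul_one]
    exact hcon
  have hdisj : Disjoint A I := by
    rw [Finset.disjoint_left]
    intro u hu hu'
    have h1 := hcross u hu u hu'
    rw [real_inner_self_eq_norm_sq, hI.1 u hu'] at h1
    linarith
  have hcode : IsSphCode n θ (A ∪ I) := by
    constructor
    · intro u hu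
      rcases Finset.mem_union.1 hu with h | h
      · obtain ⟨y, hy, rfl⟩ := Finset.mem_image.1 h
        rw [norm_act]
        exact hD.1 y (Finset.mem_filter.1 hy).1
      · exact hI.1 u h
    · intro u hu v hv huv
      rcases Finset.mem_union.1 hu with h | h
      · rcases Finset.mem_union.1 hv with h' | h'
        · obtain ⟨y, hy, rfl⟩ := Finset.mem_image.1 h
          obtain ⟨z, hz, rfl⟩ := Finset.mem_image.1 h'
          rw [inner_act]
          refine hD.2 y (Finset.mem_filter.1 hy).1 z (Finset.mem_filter.1 hz).1 ?_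
          rintro rfl
          exact huv rfl
        · rw [real_inner_comm]; exact hcross u h v h'
      · rcases Finset.mem_union.1 hv with h' | h'
        · exact hcross v h' u h
        · exact hI.2 u h v h' huv
  have h1 := le_sphMax hs hcode
  rw [Finset.card_union_of_disjoint hdisj, ← hDc, hAc] at h1
  have h2 : (D.filter fun y => act g y ∈ nbh θ I).card +
      (D.filter fun y => act g y ∉ nbh θ I).card = D.card := by
    convert! Finset.card_filter_add_card_filter_not (s := D) (fun y => act g y ∈ nbh θ I)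
  omega

lemma rot_integral (k : Fin n) {F : EuclideanSpace ℝ (Fin n) → ℝ≥0∞} {y : EuclideanSpace ℝ (Fin n)}
    (hy : ‖y‖ = 1) : ∫⁻ g, F (act g y) ∂(haarO n) = ∫⁻ g, F (col g k) ∂(haarO n) := by
  obtain ⟨h, hh⟩ := exists_col k y hy
  have h4 : ∀ g : O n, F (act g y) = F (act (g * h) (EuclideanSpace.single k 1)) := by
    intro g
    rw [act_mul, act_single, hh]
  simp_rw [h4]
  rw [lintegral_mul_right_eq_self (μ := haarO n)
    (fun g => F (act g (EuclideanSpace.single k 1))) h]
  simp_rw [act_single]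

lemma measurable_act_right (y : EuclideanSpace ℝ (Fin n)) :
    Measurable fun g : O n => act g y :=
  Measurable.of_uncurry_right (f := fun (g : O n) (y : EuclideanSpace ℝ (Fin n)) => act g y)
    measurable_act

open Classical in
/-- `|I| vol(B) ≤ A(n,θ) vol(N ∩ B)` -/
theorem replace [NeZero n] {θ : ℝ} (hs : 0 < Real.sin (θ / 2)) (hθ : Real.cos θ < 1)
    {I : Finset (EuclideanSpace ℝ (Fin n))} (hI : IsSphCode n θ I) :
    (I.card : ℝ) * vb (EuclideanSpace ℝ (Fin n)) ≤
      sphMax n θ * volume.real (nbh θ I ∩ ball 0 1) := by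
  obtain ⟨D, hD, hDc⟩ := Nat.sSup_mem (sph_nonempty n θ) (sph_bdd hs)
  change D.card = sphMax n θ at hDc
  set k : Fin n := ⟨0, Nat.pos_of_ne_zero (NeZero.ne n)⟩ with hk
  have hm := measurableSet_nbh θ I
  set F : EuclideanSpace ℝ (Fin n) → ℝ≥0∞ := (nbh θ I).indicator 1 with hF
  have hFm : Measurable F := measurable_one.indicator hm
  have hF0 : ∀ (r : ℝ) (x : EuclideanSpace ℝ (Fin n)), 0 < r → F (r • x) = F x := by
    intro r x hr
    rw [hF, indicator_apply, indicator_apply]
    simp only [nbh_smul θ I hr x, Pi.one_apply]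
  have h1 : ∀ g : O n, (I.card : ℝ≥0∞) ≤ ∑ y ∈ D, F (act g y) := by
    intro g
    have h2 := per_rotation hs hθ hD hDc hI g
    have h3 : ∑ y ∈ D, F (act g y) = ((D.filter fun y => act g y ∈ nbh θ I).card : ℝ≥0∞) := by
      rw [Finset.card_filter, Nat.cast_sum]
      apply Finset.sum_congr rfl
      intro y _
      rw [hF, indicator_apply]
      split_ifs <;> simp
    rw [h3]
    exact_mod_cast h2
  have h2 : (I.card : ℝ≥0∞) ≤ D.card * ∫⁻ g, F (col g k) ∂(haarO n) := by
    calc (I.card : ℝ≥0∞) = ∫⁻ _g, (I.card : ℝ≥0∞) ∂(haarO n) := by simp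
      _ ≤ ∫⁻ g, ∑ y ∈ D, F (act g y) ∂(haarO n) := lintegral_mono h1
      _ = ∑ y ∈ D, ∫⁻ g, F (act g y) ∂(haarO n) := by
          apply lintegral_finsetSum
          intro y _
          exact hFm.comp (measurable_act_right y)
      _ = ∑ y ∈ D, ∫⁻ g, F (col g k) ∂(haarO n) := by
          apply Finset.sum_congr rfl
          intro y hy
          exact rot_integral k (hD.1 y hy)
      _ = _ := by rw [Finset.sum_const, nsmul_eq_mul]
  have h3 := ball_average k hFm hF0
  have h4 : ∫⁻ x in ball (0 : EuclideanSpace ℝ (Fin n)) 1, F x =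
      volume (nbh θ I ∩ ball 0 1) := by
    rw [hF, lintegral_indicator_one hm, Measure.restrict_apply hm]
  rw [h4] at h3
  have h5 : (I.card : ℝ≥0∞) * volume (ball (0 : EuclideanSpace ℝ (Fin n)) 1) ≤
      (sphMax n θ : ℝ≥0∞) * volume (nbh θ I ∩ ball 0 1) := by
    rw [h3, ← hDc]
    calc (I.card : ℝ≥0∞) * volume (ball (0 : EuclideanSpace ℝ (Fin n)) 1)
        ≤ (D.card * ∫⁻ g, F (col g k) ∂(haarO n)) *
          volume (ball (0 : EuclideanSpace ℝ (Fin n)) 1) := mul_le_mul_left h2 _
      _ = _ := by ring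
  have hfin : volume (nbh θ I ∩ ball (0 : EuclideanSpace ℝ (Fin n)) 1) ≠ ⊤ :=
    ((measure_mono inter_subset_right).trans_lt measure_ball_lt_top).ne
  have h6 := ENNReal.toReal_mono (ENNReal.mul_ne_top (ENNReal.natCast_ne_top _) hfin) h5
  rw [ENNReal.toReal_mul, ENNReal.toReal_mul, ENNReal.toReal_natCast, ENNReal.toReal_natCast] at h6
  exact h6

end Pool.Agent.H85G
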