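import Pool.Agent.H85G.Lin
import Pool.Agent.H818R2.KissDefs

/-! Voronoi cells of spherical codes. -/

open MeasureTheory Metric Set Filter
open scoped Topology ENNReal InnerProductSpace
open Pool.Agent.H818R2

namespace Pool.Agent.H85G

variable {n : ℕ}

/-- the open Voronoi cell of `x` in `C`, translated by `-x` -/
def cell (C : Finset (V n)) (x : V n) : Set (V n) :=
  {z | ∀ y ∈ C, y ≠ x → ⟪z, y - x⟫_ℝ < ‖y - x‖ ^ 2 / 2}

lemma measurableSet_cell (C : Finset (V n)) (x : V n) : MeasurableSet (cell C x) := by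
  have : cell C x = ⋂ y ∈ C, ⋂ (_ : y ≠ x), {z | ⟪z, y - x⟫_ℝ < ‖y - x‖ ^ 2 / 2} := by
    ext z; simp [cell]
  rw [this]
  refine Finset.measurableSet_biInter _ fun y _ => MeasurableSet.iInter fun _ => ?_
  exact (isOpen_lt (continuous_id.inner continuous_const) continuous_const).measurableSet

lemma cell_convex {C : Finset (V n)} {x z w : V n} (hz : z ∈ cell C x) (hw : w ∈ cell C x)
    {a b : ℝ} (ha : 0 ≤ a) (hb : 0 ≤ b) (hab : a + b = 1) : a • z + b • w ∈ cell C x := by
  intro y hy hyx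
  have h1 := hz y hy hyx
  have h2 := hw y hy hyx
  rw [inner_add_left, inner_smul_left, inner_smul_left]
  simp only [conj_trivial]
  rcases ha.eq_or_lt with h | h
  · rw [← h] at hab ⊢
    have : b = 1 := by linarith
    rw [this]; linarith
  · have e1 : a * ⟪z, y - x⟫_ℝ < a * (‖y - x‖ ^ 2 / 2) := mul_lt_mul_of_pos_left h1 h
    have e2 : b * ⟪w, y - x⟫_ℝ ≤ b * (‖y - x‖ ^ 2 / 2) := mul_le_mul_of_nonneg_left h2.le hb
    have e3 : a * (‖y - x‖ ^ 2 / 2) + b * (‖y - x‖ ^ 2 / 2) = ‖y - x‖ ^ 2 / 2 := by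
      rw [← add_mul, hab, one_mul]
    linarith

lemma normSq_sub {x y : V n} (hx : ‖x‖ = 1) (hy : ‖y‖ = 1) :
    ‖y - x‖ ^ 2 = 2 - 2 * ⟪x, y⟫_ℝ := by
  rw [norm_sub_sq_real, hx, hy, real_inner_comm]; ring

lemma ball_subset_cell {C : Finset (V n)} {θ : ℝ} (hC : IsSphCode n θ C) {x : V n} (hx : x ∈ C)
    {r : ℝ} (hr : 0 < r) (hrθ : 2 * r ^ 2 ≤ 1 - Real.cos θ) : ball 0 r ⊆ cell C x := by
  intro z hz y hy hyx
  rw [mem_ball_zero_iff] at hz
  have h1 := normSq_sub (hC.1 x hx) (hC.1 y hy)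
  have h2 := hC.2 x hx y hy hyx.symm
  have h3 : (2 * r) ^ 2 ≤ ‖y - x‖ ^ 2 := by rw [h1]; nlinarith
  have h4 : 2 * r ≤ ‖y - x‖ := by
    by_contra hcon
    push Not at hcon
    nlinarith [norm_nonneg (y - x)]
  have h5 := real_inner_le_norm z (y - x)
  have h6 : 0 < ‖y - x‖ := by linarith
  have h7 : ‖z‖ * ‖y - x‖ < r * ‖y - x‖ := mul_lt_mul_of_pos_right hz h6
  nlinarith

/-- If the noise often leaves the cell then a stronger noise leaves it almost always. -/
lemma cell_stronger {C : Finset (V n)} {θ : ℝ} (hC : IsSphCode n θ C) {x : V n} (hx : x ∈ C)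
    {r : ℝ} (hr : 0 < r) (hrθ : 2 * r ^ 2 ≤ 1 - Real.cos θ) {s l : ℝ} (hs : 0 < s) (hl : 1 < l) :
    (noise n s).real (cell C x)ᶜ * (noise n (l * s)).real (cell C x) ≤
      Real.exp (-(r * (1 - 1 / l)) ^ 2 / (4 * s ^ 2)) := by
  have hl0 : 0 < l := by linarith
  have hm := measurableSet_cell C x
  have hl1 : 1 / l < 1 := by rw [div_lt_one hl0]; exact hl
  have key := noise_sep (n := n) hs hm.compl (measurable_const_smul l hm)
    (ε := r * (1 - 1 / l)) (mul_nonneg hr.le (by linarith)) (by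
    intro v hv w hw
    by_contra hcon
    push Not at hcon
    apply hv
    have hd : 0 < 1 - 1 / l := by linarith
    have h1 : (1 - 1 / l)⁻¹ • (v - w) ∈ cell C x := by
      apply ball_subset_cell hC hx hr hrθ
      rw [mem_ball_zero_iff, norm_smul, norm_inv, Real.norm_of_nonneg hd.le,
        inv_mul_lt_iff₀ hd, mul_comm]
      exact hcon
    have h2 := cell_convex hw h1 (a := 1 / l) (b := 1 - 1 / l) (by positivity) hd.le (by ring)
    rw [smul_smul, smul_smul, mul_inv_cancel₀ hd.ne', one_smul, one_div_mul_cancel hl0.ne',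
      one_smul] at h2
    have e : w + (v - w) = v := by abel
    rwa [e] at h2)
  have h2 : noise n s ((fun z => l • z) ⁻¹' (cell C x)) = noise n (l * s) (cell C x) :=
    noise_scale hs hl0 hm
  rw [h2] at key
  rw [measureReal_def, measureReal_def, ← ENNReal.toReal_mul]
  exact ENNReal.toReal_le_of_le_ofReal (Real.exp_pos _).le key

end Pool.Agent.H85G
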