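import Pool.Agent.H85G.Dich

/-! The strong converse: codes which are too large have an error probability close to one. -/

open MeasureTheory Metric Set Filter
open scoped Topology ENNReal InnerProductSpace
open Pool.Agent.H818R2

namespace Pool.Agent.H85G

variable {n : ℕ}

lemma noise_real_le {s : ℝ} {A : Set (V n)} {b : ℝ} (hb : 0 ≤ b) (h : noise n s A ≤ ENNReal.ofReal b) :
    (noise n s).real A ≤ b := by
  rw [measureReal_def]; exact ENNReal.toReal_le_of_le_ofReal hb h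

/-- the bound for the probability of a correct decision -/
lemma correct_bound {σ ε u R2 : ℝ} (hn : 0 < n) (hσ : 0 < σ) (hε : 0 < ε) (hR : 0 < R2)
    (hu0 : 0 < u) (hu1 : u < 1) {C : Finset (EuclideanSpace ℝ (Fin n))}
    (hC : ∀ x ∈ C, ‖x‖ = 1) (hC0 : C.Nonempty)
    {D : EuclideanSpace ℝ (Fin n) → EuclideanSpace ℝ (Fin n)} (hD : Measurable D) :
    1 - avgErr n σ C D ≤
      Real.exp ((n : ℝ) / 2 * (ε * (1 - ε))) * (1 + ε) ^ (-(n : ℝ) / 2) +
      Real.exp ((n : ℝ) / 2 * (-(u * R2 / σ ^ 2) + u / (σ ^ 2 * (1 - u)))) *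
        (1 - u) ^ (-(n : ℝ) / 2) +
      (R2 / σ ^ 2) ^ ((n : ℝ) / 2) * Real.exp ((n : ℝ) / 2 * ε) / C.card := by
  have hn0 : (0 : ℝ) < n := by exact_mod_cast hn
  have hs : 0 < σ / √(n : ℝ) := by positivity
  have hs2 : (σ / √(n : ℝ)) ^ 2 = σ ^ 2 / n := by rw [div_pow, Real.sq_sqrt hn0.le]
  set s : ℝ := σ / √(n : ℝ) with hsd
  have hprob := isProb (n := n) hs
  set t1 : ℝ := Real.exp ((n : ℝ) / 2 * (ε * (1 - ε))) * (1 + ε) ^ (-(n : ℝ) / 2) with ht1
  set t2 : ℝ := Real.exp ((n : ℝ) / 2 * (-(u * R2 / σ ^ 2) + u / (σ ^ 2 * (1 - u)))) *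
        (1 - u) ^ (-(n : ℝ) / 2) with ht2
  set t3 : ℝ := (R2 / σ ^ 2) ^ ((n : ℝ) / 2) * Real.exp ((n : ℝ) / 2 * ε) with ht3
  have h1u : 0 < 1 - u := by linarith
  -- the lower tail
  have hA1 : (noise n s).real {z | ‖z‖ ^ 2 ≤ (1 - ε) * σ ^ 2} ≤ t1 := by
    apply noise_real_le (by positivity)
    have := lower_tail (n := n) hs (b := n * ε / (2 * σ ^ 2)) (R2 := (1 - ε) * σ ^ 2)
      (by positivity)
    refine this.trans (le_of_eq ?_)
    have e1 : (n : ℝ) * ε / (2 * σ ^ 2) * ((1 - ε) * σ ^ 2) = n / 2 * (ε * (1 - ε)) := by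
      field_simp
    have e2 : 1 + 2 * ((n : ℝ) * ε / (2 * σ ^ 2)) * s ^ 2 = 1 + ε := by
      rw [hs2]; field_simp
    rw [e1, e2]
  -- the upper tail
  have hA2 : ∀ x ∈ C, (noise n s).real {z | R2 ≤ ‖x + z‖ ^ 2} ≤ t2 := by
    intro x hx
    apply noise_real_le (by positivity)
    have e1 : 2 * (n * u / (2 * σ ^ 2)) * s ^ 2 = u := by rw [hs2]; field_simp
    have := upper_tail (n := n) hs (b := n * u / (2 * σ ^ 2)) (R2 := R2)
      (by positivity) (by rw [e1]; exact hu1) x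
    refine this.trans (le_of_eq ?_)
    have e2 : -((n : ℝ) * u / (2 * σ ^ 2) * R2) + n * u / (2 * σ ^ 2) * ‖x‖ ^ 2 / (1 - u) =
        n / 2 * (-(u * R2 / σ ^ 2) + u / (σ ^ 2 * (1 - u))) := by
      rw [hC x hx]; field_simp
    rw [e1, e2]
  -- the remaining part
  set G : EuclideanSpace ℝ (Fin n) → Set (EuclideanSpace ℝ (Fin n)) :=
    fun x => {z | D (x + z) = x ∧ (1 - ε) * σ ^ 2 < ‖z‖ ^ 2 ∧ ‖x + z‖ ^ 2 < R2} with hG
  set H : EuclideanSpace ℝ (Fin n) → Set (EuclideanSpace ℝ (Fin n)) :=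
    fun x => {y | D y = x ∧ ‖y‖ ^ 2 < R2} with hH
  have hGm : ∀ x, MeasurableSet (G x) := by
    intro x
    have h1 : Measurable fun z : EuclideanSpace ℝ (Fin n) => D (x + z) :=
      hD.comp (measurable_const.add measurable_id)
    refine MeasurableSet.inter (h1 (measurableSet_singleton x)) (MeasurableSet.inter ?_ ?_)
    · exact (isOpen_lt continuous_const (continuous_norm.pow 2)).measurableSet
    · exact (isOpen_lt ((continuous_const.add continuous_id).norm.pow 2)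
        continuous_const).measurableSet
  have hHm : ∀ x, MeasurableSet (H x) := by
    intro x
    refine MeasurableSet.inter (hD (measurableSet_singleton x)) ?_
    exact (isOpen_lt (continuous_norm.pow 2) continuous_const).measurableSet
  have hHb : ∀ x, H x ⊆ ball 0 √R2 := by
    rintro x y ⟨-, hy⟩
    rw [mem_ball_zero_iff]
    exact Real.lt_sqrt_of_sq_lt hy
  have hHfin : ∀ x, volume (H x) ≠ ⊤ := fun x =>
    ((measure_mono (hHb x)).trans_lt measure_ball_lt_top).ne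
  set κ : ℝ := (2 * Real.pi * s ^ 2) ^ (-(n : ℝ) / 2) * Real.exp (-((1 - ε) * σ ^ 2) / (2 * s ^ 2))
    with hκ
  have hκ0 : 0 ≤ κ := by positivity
  have hA3 : ∀ x, (noise n s).real (G x) ≤ κ * volume.real (H x) := by
    intro x
    apply noise_real_le (by positivity)
    have := noise_le_vol (n := n) hs (hGm x) (R2 := (1 - ε) * σ ^ 2) (fun z hz => hz.2.1.le) x
    refine this.trans ?_
    rw [ENNReal.ofReal_mul hκ0, measureReal_def, ENNReal.ofReal_toReal (hHfin x)]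
    apply mul_le_mul_right
    apply measure_mono
    rintro _ ⟨z, ⟨hz1, -, hz3⟩, rfl⟩
    exact ⟨hz1, hz3⟩
  have hsumH : ∑ x ∈ C, volume.real (H x) ≤ R2 ^ ((n : ℝ) / 2) * bb n := by
    rw [← measureReal_biUnion_finset (fun x _ y _ hxy => by
      rw [Function.onFun, Set.disjoint_left]
      rintro z ⟨hz, -⟩ ⟨hz', -⟩
      exact hxy (hz.symm.trans hz')) (fun x _ => hHm x) (fun x _ => hHfin x)]
    have h1 : volume.real (⋃ x ∈ C, H x) ≤
        volume.real (ball (0 : EuclideanSpace ℝ (Fin n)) √R2) :=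
      measureReal_mono (iUnion₂_subset fun x _ => hHb x) measure_ball_lt_top.ne
    refine h1.trans ?_
    rw [vol_ball _ (Real.sqrt_pos.2 hR), finrank_euclideanSpace_fin]
    have e : √R2 ^ n = R2 ^ ((n : ℝ) / 2) := by
      rw [Real.sqrt_eq_rpow, ← Real.rpow_natCast, ← Real.rpow_mul hR.le]
      congr 1; ring
    rw [e]
    exact mul_le_mul_of_nonneg_left (vb_le hn) (by positivity)
  have hκt : κ * (R2 ^ ((n : ℝ) / 2) * bb n) = t3 := by
    rw [hκ, ht3, hs2]
    unfold bb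
    have e1 : Real.exp (-((1 - ε) * σ ^ 2) / (2 * (σ ^ 2 / n))) =
        Real.exp ((n : ℝ) / 2 * ε) * Real.exp (-((n : ℝ) / 2)) := by
      rw [← Real.exp_add]; congr 1; field_simp; ring
    have e2 : Real.exp (-((n : ℝ) / 2)) * Real.exp ((n : ℝ) / 2) = 1 := by
      rw [← Real.exp_add]; simp
    have e3 : (2 * Real.pi * (σ ^ 2 / n)) ^ (-(n : ℝ) / 2) =
        (2 * Real.pi * (1 / n)) ^ (-(n : ℝ) / 2) * (σ ^ 2) ^ (-(n : ℝ) / 2) := by
      rw [← Real.mul_rpow (by positivity) (by positivity)]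
      congr 1; ring
    have e4 : (2 * Real.pi * (1 / n) : ℝ) ^ (-(n : ℝ) / 2) *
        (2 * Real.pi * (1 / n)) ^ ((n : ℝ) / 2) = 1 := by
      rw [← Real.rpow_add (by positivity), show -(n : ℝ) / 2 + (n : ℝ) / 2 = 0 by ring,
        Real.rpow_zero]
    have e5 : (R2 / σ ^ 2) ^ ((n : ℝ) / 2) = R2 ^ ((n : ℝ) / 2) * (σ ^ 2) ^ (-(n : ℝ) / 2) := by
      rw [Real.div_rpow hR.le (by positivity), neg_div, Real.rpow_neg (by positivity),
        div_eq_mul_inv]
    rw [e1, e3, e5]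
    linear_combination ((σ ^ 2) ^ (-(n : ℝ) / 2) * Real.exp ((n : ℝ) / 2 * ε) *
      R2 ^ ((n : ℝ) / 2)) * (Real.exp (-((n : ℝ) / 2)) * Real.exp ((n : ℝ) / 2) * e4 + e2)
  -- all together
  have hper : ∀ x ∈ C, 1 ≤ (noise n s).real {z | D (x + z) ≠ x} +
      (t1 + t2 + κ * volume.real (H x)) := by
    intro x hx
    have hcov : (univ : Set (EuclideanSpace ℝ (Fin n))) ⊆ {z | D (x + z) ≠ x} ∪
        ({z | ‖z‖ ^ 2 ≤ (1 - ε) * σ ^ 2} ∪ {z | R2 ≤ ‖x + z‖ ^ 2} ∪ G x) := by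
      intro z _
      by_cases h1 : D (x + z) ≠ x
      · left; exact h1
      · right
        push Not at h1
        by_cases h2 : ‖z‖ ^ 2 ≤ (1 - ε) * σ ^ 2
        · left; left; exact h2
        · by_cases h3 : R2 ≤ ‖x + z‖ ^ 2
          · left; right; exact h3
          · right; exact ⟨h1, not_le.1 h2, not_le.1 h3⟩
    have h1 : (noise n s).real univ = 1 := by
      rw [measureReal_def, noise_univ hs, ENNReal.toReal_one]
    calc 1 = (noise n s).real univ := h1.symm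
      _ ≤ (noise n s).real ({z | D (x + z) ≠ x} ∪
        ({z | ‖z‖ ^ 2 ≤ (1 - ε) * σ ^ 2} ∪ {z | R2 ≤ ‖x + z‖ ^ 2} ∪ G x)) :=
          measureReal_mono hcov (measure_lt_top _ _).ne
      _ ≤ (noise n s).real {z | D (x + z) ≠ x} +
        (noise n s).real ({z | ‖z‖ ^ 2 ≤ (1 - ε) * σ ^ 2} ∪ {z | R2 ≤ ‖x + z‖ ^ 2} ∪ G x) :=
          measureReal_union_le _ _
      _ ≤ (noise n s).real {z | D (x + z) ≠ x} +
        ((noise n s).real ({z | ‖z‖ ^ 2 ≤ (1 - ε) * σ ^ 2} ∪ {z | R2 ≤ ‖x + z‖ ^ 2}) +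
          (noise n s).real (G x)) := by
          gcongr; exact measureReal_union_le _ _
      _ ≤ (noise n s).real {z | D (x + z) ≠ x} +
        (((noise n s).real {z | ‖z‖ ^ 2 ≤ (1 - ε) * σ ^ 2} +
          (noise n s).real {z | R2 ≤ ‖x + z‖ ^ 2}) + (noise n s).real (G x)) := by
          gcongr; exact measureReal_union_le _ _
      _ ≤ _ := by
          have := hA2 x hx
          have := hA3 x
          linarith
  have hCpos : (0 : ℝ) < C.card := by exact_mod_cast Finset.card_pos.2 hC0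
  have hsum := Finset.sum_le_sum hper
  rw [Finset.sum_const, nsmul_eq_mul, mul_one, Finset.sum_add_distrib, Finset.sum_add_distrib,
    Finset.sum_const, nsmul_eq_mul, ← Finset.mul_sum] at hsum
  have h1 : (C.card : ℝ) ≤ ∑ x ∈ C, (noise n s).real {z | D (x + z) ≠ x} +
      (C.card * (t1 + t2) + t3) := by
    refine hsum.trans ?_
    rw [← hκt]
    have := mul_le_mul_of_nonneg_left hsumH hκ0
    linarith
  unfold avgErr
  rw [← hsd]
  have h2 : (C.card : ℝ) * (1 - (∑ x ∈ C, (noise n s).real {z | D (x + z) ≠ x}) / C.card) ≤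
      C.card * (t1 + t2 + t3 / C.card) := by
    have e1 : (C.card : ℝ) * (1 - (∑ x ∈ C, (noise n s).real {z | D (x + z) ≠ x}) / C.card) =
        C.card - ∑ x ∈ C, (noise n s).real {z | D (x + z) ≠ x} := by field_simp
    have e2 : (C.card : ℝ) * (t1 + t2 + t3 / C.card) = C.card * (t1 + t2) + t3 := by field_simp
    rw [e1, e2]; linarith
  exact le_of_mul_le_mul_left h2 hCpos

end Pool.Agent.H85G
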