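import Pool.Agent.H85G.Main

/-! The dichotomy in high dimensions, and the decoder. -/

open MeasureTheory Metric Set Filter
open scoped Topology ENNReal InnerProductSpace
open Pool.Agent.H818R2

namespace Pool.Agent.H85G

/-- The average probability of a decoding error of the decoder `D` for the code `C` on the Gaussian
channel: a uniformly random codeword `x` is sent, `x + z` is received, and `z` is a centred
Gaussian vector with covariance `(σ² / n) I`. -/
noncomputable def avgErr (n : ℕ) (σ : ℝ) (C : Finset (EuclideanSpace ℝ (Fin n)))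
    (D : EuclideanSpace ℝ (Fin n) → EuclideanSpace ℝ (Fin n)) : ℝ :=
  (∑ x ∈ C, (noise n (σ / √n)).real {z | D (x + z) ≠ x}) / C.card

variable {n : ℕ}

lemma out_nonneg {s : ℝ} (C : Finset (V n)) (x : V n) : 0 ≤ out s C x := measureReal_nonneg

lemma out_le_one {s : ℝ} (hs : 0 < s) (C : Finset (V n)) (x : V n) : out s C x ≤ 1 := by
  unfold out
  rw [measureReal_def]
  exact ENNReal.toReal_le_of_le_ofReal zero_le_one (by
    rw [ENNReal.ofReal_one]; exact noise_le_one hs _)

/-- the decoder -/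
lemma exists_decoder {σ : ℝ} (hσ : 0 < σ) (hn : 0 < n) (C : Finset (V n)) :
    ∃ D : V n → V n, Measurable D ∧ avgErr n σ C D ≤ (∑ x ∈ C, out (σ / √n) C x) / C.card := by
  classical
  have hs : 0 < σ / √(n : ℝ) := by
    have : (0 : ℝ) < n := by exact_mod_cast hn
    positivity
  refine ⟨fun y => ∑ x ∈ C, ({y | y - x ∈ cell C x} : Set (V n)).indicator (fun _ => x) y,
    ?_, ?_⟩
  · refine Finset.measurable_sum _ fun x _ => measurable_const.indicator ?_
    exact (measurable_id.sub_const x) (measurableSet_cell C x)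
  · unfold avgErr
    apply div_le_div_of_nonneg_right _ (Nat.cast_nonneg _)
    apply Finset.sum_le_sum
    intro x hx
    have := isProb (n := n) hs
    apply measureReal_mono _ (measure_lt_top _ _).ne
    intro z hz hzc
    apply hz
    have key : ∀ w ∈ C, w ≠ x →
        ({y | y - w ∈ cell C w} : Set (V n)).indicator (fun _ => w) (x + z) = 0 := by
      intro w hw hwx
      apply indicator_of_notMem
      intro h
      have h1 : ⟪x + z - w, x - w⟫_ℝ < ‖x - w‖ ^ 2 / 2 := h x hx hwx.symm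
      have h2 : ⟪z, w - x⟫_ℝ < ‖w - x‖ ^ 2 / 2 := hzc w hw hwx
      have e1 : x + z - w = (x - w) + z := by abel
      have e2 : w - x = -(x - w) := by abel
      rw [e1, inner_add_left, real_inner_self_eq_norm_sq] at h1
      rw [e2, inner_neg_right, norm_neg] at h2
      linarith
    change ∑ w ∈ C, ({y | y - w ∈ cell C w} : Set (V n)).indicator (fun _ => w) (x + z) = x
    rw [Finset.sum_eq_single x (fun w hw hwx => key w hw hwx) (fun h => absurd hx h)]
    apply indicator_of_mem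
    change x + z - x ∈ cell C x
    rwa [add_sub_cancel_left]

lemma aux1 {x : ℝ} (hx : 1 ≤ x) : 3 * (x + 1) ≤ 3 * (4 * x ^ 2) := by nlinarith

lemma aux2 {x : ℝ} (hx : 1 ≤ x) : x * (x + 1) ≤ 4 * x ^ 2 := by nlinarith

/-- Either the largest spherical codes of angle `θ` are exponentially larger than Wyner's bound,
or for all the codes of angle `θ` the noise leaves the Voronoi cell with exponentially small
probability. -/
theorem dich {θ σ : ℝ} (h0 : 0 < θ) (h1 : θ < Real.pi / 2) (hσ : 0 < σ) (hσθ : σ < Real.tan θ) :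
    ∃ c : ℝ, 0 < c ∧ ∀ᶠ n : ℕ in atTop,
      (2 : ℝ) ^ (c * n) * (1 / Real.sin θ) ^ n ≤ sphMax n θ ∨
      ∀ C : Finset (EuclideanSpace ℝ (Fin n)), IsSphCode n θ C → C.Nonempty →
        ∑ x ∈ C, out (σ / √n) C x ≤ (2 : ℝ) ^ (-c * n) * C.card := by
  obtain ⟨T, hσT, hTθ⟩ := exists_between hσθ
  have hT : 0 < T := hσ.trans hσT
  have hS : 0 < Real.sin θ := Real.sin_pos_of_pos_of_lt_pi h0 (by linarith [Real.pi_pos])
  have ha : 0 < Real.cos θ := Real.cos_pos_of_mem_Ioo ⟨by linarith [Real.pi_pos], h1⟩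
  have hsc := Real.sin_sq_add_cos_sq θ
  have ha1 : Real.cos θ < 1 := by nlinarith
  obtain ⟨δ, hδ, hd1, hd2, hd3⟩ := exists_delta h0 h1 hT hTθ
  set q : ℝ := Real.cos θ + δ with hq
  have hq0 : 0 < q := by linarith
  have hq1 : 0 < 1 - q ^ 2 := by nlinarith
  set Sq : ℝ := √(1 - q ^ 2) with hSqd
  have hSq : 0 < Sq := Real.sqrt_pos.2 hq1
  have hqS : q ^ 2 + Sq ^ 2 = 1 := by rw [hSqd, Real.sq_sqrt hq1.le]; ring
  have hSS : Sq < Real.sin θ := by
    by_contra hcon
    push Not at hcon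
    nlinarith
  set r : ℝ := (1 - Real.cos θ) / 2 with hr
  have hr0 : 0 < r := by rw [hr]; linarith
  have hr2 : 2 * r ^ 2 ≤ 1 - Real.cos θ := by rw [hr]; nlinarith
  set κ : ℝ := (r * (1 - σ / T)) ^ 2 / (4 * σ ^ 2) with hκ
  have hκ0 : 0 < κ := by
    have : 0 < 1 - σ / T := by rw [sub_pos, div_lt_one hT]; exact hσT
    positivity
  set ρ : ℝ := max (Sq / Real.sin θ) (Real.exp (-κ)) with hρ
  have hρ0 : 0 < ρ := lt_of_lt_of_le (Real.exp_pos _) (le_max_right _ _)
  have hρ1 : ρ < 1 := by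
    apply max_lt
    · rwa [div_lt_one hS]
    · rw [Real.exp_lt_one_iff]; linarith
  set K : ℝ := 3 / Sq + 3 * (T / Real.sin θ) * Real.exp (1 / (2 * T ^ 2)) with hK
  have hK0 : 0 < K := by positivity
  set c : ℝ := -Real.logb 2 ρ / 4 with hc
  have hlog : Real.logb 2 ρ < 0 := Real.logb_neg (by norm_num) hρ0 hρ1
  have hc0 : 0 < c := by rw [hc]; linarith
  have hc2 : (2 : ℝ) ^ (2 * c) * ρ < 1 := by
    have e : ρ = (2 : ℝ) ^ (-(4 * c)) := by
      rw [hc, show -(4 * (-Real.logb 2 ρ / 4)) = Real.logb 2 ρ by ring,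
        Real.rpow_logb (by norm_num) (by norm_num) hρ0]
    rw [e, ← Real.rpow_add (by norm_num)]
    apply Real.rpow_lt_one_of_one_lt_of_neg (by norm_num)
    linarith
  have hlim := tendsto_pow_const_mul_const_pow_of_abs_lt_one 2
    (show |(2 : ℝ) ^ (2 * c) * ρ| < 1 by rw [abs_of_pos (by positivity)]; exact hc2)
  refine ⟨c, hc0, ?_⟩
  filter_upwards [eventually_ge_atTop 1, hlim.eventually (gt_mem_nhds
    (show (0 : ℝ) < 1 / (8 * K) by positivity))] with n hn hsmall
  have : NeZero n := ⟨by omega⟩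
  have hn0 : (0 : ℝ) < n := by exact_mod_cast hn
  have hn1 : (1 : ℝ) ≤ n := by exact_mod_cast hn
  by_contra hcon
  push Not at hcon
  obtain ⟨hlow, C, hC, hC0, hCout⟩ := hcon
  have hs : 0 < σ / √(n : ℝ) := by positivity
  set p : ℝ := (2 : ℝ) ^ (-c * n) with hp
  have hp0 : 0 < p := by positivity
  classical
  set I : Finset (V n) := C.filter fun x => p / 2 ≤ out (σ / √n) C x with hI
  have hCpos : (0 : ℝ) < C.card := by exact_mod_cast Finset.card_pos.2 hC0
  have h2 : ∑ x ∈ C, out (σ / √n) C x ≤ I.card + C.card * (p / 2) := by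
    have h3 : ∀ x ∈ C, out (σ / √n) C x ≤
        (if p / 2 ≤ out (σ / √n) C x then (1 : ℝ) else 0) + p / 2 := by
      intro x _
      split_ifs with h
      · linarith [out_le_one hs C x]
      · linarith
    refine (Finset.sum_le_sum h3).trans (le_of_eq ?_)
    rw [Finset.sum_add_distrib, Finset.sum_const, nsmul_eq_mul, hI, Finset.card_filter]
    push_cast
    rfl
  have h4 : p / 2 * C.card < I.card := by linarith
  have hI0 : I.Nonempty := by
    rw [← Finset.card_pos]
    have : (0 : ℝ) < I.card := lt_trans (by positivity) h4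
    exact_mod_cast this
  have key := main_ineq h0 h1 hσ hσT hδ hd1 hd2 hq hSq hqS hr0 hr2 hC (Finset.filter_subset _ _)
    (show 0 < p / 2 by positivity) (fun x hx => (Finset.mem_filter.1 hx).2) hI0 h4.le
  rw [← hκ] at key
  have hE : Real.exp (-κ * n) = Real.exp (-κ) ^ n := by rw [← Real.exp_nat_mul]; ring_nf
  rw [hE] at key
  have hA : Sq ^ n ≤ Real.sin θ ^ n * ρ ^ n := by
    rw [← mul_pow]
    apply pow_le_pow_left₀ hSq.le
    have := mul_le_mul_of_nonneg_left (le_max_left (Sq / Real.sin θ) (Real.exp (-κ))) hS.le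
    rwa [mul_div_cancel₀ _ hS.ne'] at this
  have hB : Real.exp (-κ) ^ n ≤ ρ ^ n :=
    pow_le_pow_left₀ (Real.exp_pos _).le (le_max_right _ _) n
  have h5 : 3 * ((n : ℝ) + 1) / Sq * Sq ^ n +
      3 * n * (n + 1) * (T / Real.sin θ) * Real.exp (1 / (2 * T ^ 2)) * Real.sin θ ^ n *
        Real.exp (-κ) ^ n ≤ 4 * n ^ 2 * K * (Real.sin θ ^ n * ρ ^ n) := by
    have e1 : 3 * ((n : ℝ) + 1) / Sq * Sq ^ n ≤
        4 * n ^ 2 * (3 / Sq) * (Real.sin θ ^ n * ρ ^ n) := by
      have e2 : 3 * ((n : ℝ) + 1) / Sq ≤ 4 * n ^ 2 * (3 / Sq) := by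
        have : 4 * (n : ℝ) ^ 2 * (3 / Sq) = 3 * (4 * n ^ 2) / Sq := by ring
        rw [this]
        exact div_le_div_of_nonneg_right (aux1 hn1) hSq.le
      exact mul_le_mul e2 hA (by positivity) (by positivity)
    have e3 : 3 * (n : ℝ) * (n + 1) * (T / Real.sin θ) * Real.exp (1 / (2 * T ^ 2)) *
        Real.sin θ ^ n * Real.exp (-κ) ^ n ≤
        4 * n ^ 2 * (3 * (T / Real.sin θ) * Real.exp (1 / (2 * T ^ 2))) *
          (Real.sin θ ^ n * ρ ^ n) := by
      have e4 : 3 * (n : ℝ) * (n + 1) * (T / Real.sin θ) * Real.exp (1 / (2 * T ^ 2)) ≤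
          4 * n ^ 2 * (3 * (T / Real.sin θ) * Real.exp (1 / (2 * T ^ 2))) := by
        have e5 : 3 * (n : ℝ) * (n + 1) * (T / Real.sin θ) * Real.exp (1 / (2 * T ^ 2)) =
          (n * (n + 1)) * (3 * (T / Real.sin θ) * Real.exp (1 / (2 * T ^ 2))) := by ring
        rw [e5]
        exact mul_le_mul_of_nonneg_right (aux2 hn1) (by positivity)
      rw [mul_assoc _ (Real.sin θ ^ n)]
      apply mul_le_mul e4 _ (by positivity) (by positivity)
      exact mul_le_mul_of_nonneg_left hB (by positivity)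
    refine (add_le_add e1 e3).trans (le_of_eq ?_)
    rw [hK]
    ring
  have h6 := key.trans (mul_le_mul_of_nonneg_left h5 (Nat.cast_nonneg _))
  -- contradiction with the two smallness assumptions
  set A : ℝ := (sphMax n θ : ℝ) with hAd
  have h7 : A * (4 * n ^ 2 * K * (Real.sin θ ^ n * ρ ^ n)) <
      ((2 : ℝ) ^ (c * n) * (1 / Real.sin θ) ^ n) * (4 * n ^ 2 * K * (Real.sin θ ^ n * ρ ^ n)) :=
    mul_lt_mul_of_pos_right hlow (by positivity)
  have h8 : ((2 : ℝ) ^ (c * n) * (1 / Real.sin θ) ^ n) *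
      (4 * n ^ 2 * K * (Real.sin θ ^ n * ρ ^ n)) =
      4 * K * (n ^ 2 * ((2 : ℝ) ^ (2 * c) * ρ) ^ n) * p := by
    have e1 : (1 / Real.sin θ) ^ n * Real.sin θ ^ n = 1 := by
      rw [← mul_pow, one_div_mul_cancel hS.ne', one_pow]
    have e2 : (2 : ℝ) ^ (c * n) = ((2 : ℝ) ^ (2 * c)) ^ n * p := by
      rw [hp, ← Real.rpow_natCast, ← Real.rpow_mul (by norm_num), ← Real.rpow_add (by norm_num)]
      congr 1; ring
    rw [mul_pow, e2]
    linear_combination (((2 : ℝ) ^ (2 * c)) ^ n * p * (4 * n ^ 2 * K * ρ ^ n)) * e1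
  have h9 : 4 * K * (n ^ 2 * ((2 : ℝ) ^ (2 * c) * ρ) ^ n) < 1 / 2 := by
    calc 4 * K * (n ^ 2 * ((2 : ℝ) ^ (2 * c) * ρ) ^ n) < 4 * K * (1 / (8 * K)) :=
          mul_lt_mul_of_pos_left hsmall (by positivity)
      _ = 1 / 2 := by field_simp; norm_num
  have h10 := mul_lt_mul_of_pos_right h9 hp0
  rw [h8] at h7
  linarith

end Pool.Agent.H85G
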