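import Pool.Agent.H85G.Strong
import Pool.Agent.H818R2.Kiss4
import Pool.Agent.N596.KC.Asym

/-! The equivalences. -/

open MeasureTheory Metric Set Filter
open scoped Topology ENNReal InnerProductSpace
open Pool.Agent.H818R2

namespace Pool.Agent.H85G

/-- every nonempty spherical code of angle `θ` has a decoder with error probability `≤ p` -/
def Rel (n : ℕ) (θ σ p : ℝ) : Prop :=
  ∀ C : Finset (EuclideanSpace ℝ (Fin n)), IsSphCode n θ C → C.Nonempty →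
    ∃ D : EuclideanSpace ℝ (Fin n) → EuclideanSpace ℝ (Fin n), Measurable D ∧ avgErr n σ C D ≤ p

/-- some largest spherical code of angle `θ` has a decoder with error probability `≤ p` -/
def OptRel (n : ℕ) (θ σ p : ℝ) : Prop :=
  ∃ C : Finset (EuclideanSpace ℝ (Fin n)), IsSphCode n θ C ∧ C.card = sphMax n θ ∧
    ∃ D : EuclideanSpace ℝ (Fin n) → EuclideanSpace ℝ (Fin n), Measurable D ∧ avgErr n σ C D ≤ p

lemma Rel.mono {n : ℕ} {θ σ p q : ℝ} (h : Rel n θ σ p) (hpq : p ≤ q) : Rel n θ σ q := by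
  intro C hC hC0
  obtain ⟨D, hD, hDp⟩ := h C hC hC0
  exact ⟨D, hD, hDp.trans hpq⟩

section
variable {θ : ℝ} (h0 : 0 < θ) (h1 : θ < Real.pi / 2)
include h0 h1

lemma sin_half : 0 < Real.sin (θ / 2) :=
  Real.sin_pos_of_pos_of_lt_pi (by linarith) (by linarith [Real.pi_pos])

lemma sin_pos : 0 < Real.sin θ :=
  Real.sin_pos_of_pos_of_lt_pi h0 (by linarith [Real.pi_pos])

lemma sin_lt_one : Real.sin θ < 1 := by
  have ha : 0 < Real.cos θ := Real.cos_pos_of_mem_Ioo ⟨by linarith [Real.pi_pos], h1⟩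
  have hsc := Real.sin_sq_add_cos_sq θ
  nlinarith [sin_pos h0 h1]

lemma Rel.opt {n : ℕ} (hn : 2 ≤ n) {σ p : ℝ} (h : Rel n θ σ p) : OptRel n θ σ p := by
  have : NeZero n := ⟨by omega⟩
  obtain ⟨C, hC, hCc⟩ := Nat.sSup_mem (sph_nonempty n θ) (sph_bdd (sin_half h0 h1))
  change C.card = sphMax n θ at hCc
  have hpos := sphMax_pos hn (sin_half h0 h1)
  have hC0 : C.Nonempty := by
    rw [← Finset.card_pos, hCc]
    exact_mod_cast hpos
  obtain ⟨D, hD, hDp⟩ := h C hC hC0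
  exact ⟨C, hC, hCc, D, hD, hDp⟩

/-- the dichotomy -/
theorem dichotomy {σ : ℝ} (hσ : 0 < σ) (hσθ : σ < Real.tan θ) :
    ∃ c : ℝ, 0 < c ∧ ∀ᶠ n : ℕ in atTop,
      (2 : ℝ) ^ (c * n) * (1 / Real.sin θ) ^ n ≤ sphMax n θ ∨ Rel n θ σ ((2 : ℝ) ^ (-c * n)) := by
  obtain ⟨c, hc, h⟩ := dich h0 h1 hσ hσθ
  refine ⟨c, hc, ?_⟩
  filter_upwards [h, eventually_ge_atTop 1] with n hn hn1
  rcases hn with hn | hn
  · exact Or.inl hn
  · right
    intro C hC hC0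
    obtain ⟨D, hD, hDp⟩ := exists_decoder hσ (by omega : 0 < n) C
    refine ⟨D, hD, hDp.trans ?_⟩
    rw [div_le_iff₀ (by exact_mod_cast Finset.card_pos.2 hC0)]
    exact hn C hC hC0

omit h0 h1 in
lemma logb_inv_pow (hS : 0 < Real.sin θ) (c : ℝ) (n : ℕ) :
    (2 : ℝ) ^ (c * n) * (1 / Real.sin θ) ^ n =
      (2 : ℝ) ^ ((-Real.logb 2 (Real.sin θ) + c) * n) := by
  have e : (1 / Real.sin θ) ^ n = (2 : ℝ) ^ (-Real.logb 2 (Real.sin θ) * n) := by
    rw [Real.rpow_mul (by norm_num), Real.rpow_neg (by norm_num),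
      Real.rpow_logb (by norm_num) (by norm_num) hS, Real.rpow_natCast, one_div]
  rw [e, ← Real.rpow_add (by norm_num)]
  congr 1; ring

lemma rate_ge {c : ℝ} {n : ℕ} (hn : 2 ≤ n) :
    (2 : ℝ) ^ (c * n) * (1 / Real.sin θ) ^ n ≤ sphMax n θ ↔
      -Real.logb 2 (Real.sin θ) + c ≤ codeRate θ n := by
  have hn0 : (0 : ℝ) < n := by
    have : 0 < n := by omega
    exact_mod_cast this
  rw [logb_inv_pow (sin_pos h0 h1), ← Real.le_logb_iff_rpow_le (by norm_num)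
    (sphMax_pos hn (sin_half h0 h1))]
  unfold codeRate
  rw [le_div_iff₀ hn0]

lemma bdd_above : IsBoundedUnder (· ≤ ·) atTop (codeRate θ) :=
  ⟨_, by
    rw [eventually_map]
    exact Eventually.of_forall (codeRate_le (sin_half h0 h1))⟩

omit h0 h1 in
lemma bdd_below : IsBoundedUnder (· ≥ ·) atTop (codeRate θ) :=
  ⟨0, by
    rw [eventually_map]
    exact Eventually.of_forall (codeRate_nonneg θ)⟩

lemma le_liminf : -Real.logb 2 (Real.sin θ) ≤ liminf (codeRate θ) atTop := by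
  apply le_of_forall_lt_imp_le_of_dense
  intro c hc
  apply le_liminf_of_le (bdd_above h0 h1).isCoboundedUnder_ge
  filter_upwards [Pool.Agent.N596.KC.pow_le_sphMax h0 h1 hc, eventually_ge_atTop 2] with n hn hn2
  have hn0 : (0 : ℝ) < n := by
    have : 0 < n := by omega
    exact_mod_cast this
  rw [← Real.le_logb_iff_rpow_le (by norm_num) (sphMax_pos hn2 (sin_half h0 h1))] at hn
  unfold codeRate
  rwa [le_div_iff₀ hn0]

lemma liminf_le_limsup' : liminf (codeRate θ) atTop ≤ limsup (codeRate θ) atTop :=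
  liminf_le_limsup (bdd_above h0 h1) bdd_below

/-- the upper exponent equals Wyner's bound: all codes are reliable -/
theorem limsup_rel (h : limsup (codeRate θ) atTop = -Real.logb 2 (Real.sin θ)) {σ : ℝ}
    (hσ : 0 < σ) (hσθ : σ < Real.tan θ) :
    ∃ c : ℝ, 0 < c ∧ ∀ᶠ n : ℕ in atTop, Rel n θ σ ((2 : ℝ) ^ (-c * n)) := by
  obtain ⟨c, hc, hd⟩ := dichotomy h0 h1 hσ hσθ
  refine ⟨c, hc, ?_⟩
  have hlt : limsup (codeRate θ) atTop < -Real.logb 2 (Real.sin θ) + c := by rw [h]; linarith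
  filter_upwards [hd, eventually_lt_of_limsup_lt hlt (bdd_above h0 h1), eventually_ge_atTop 2]
    with n h2 h3 h4
  rcases h2 with h2 | h2
  · rw [rate_ge h0 h1 h4] at h2
    linarith
  · exact h2

theorem liminf_rel (h : liminf (codeRate θ) atTop = -Real.logb 2 (Real.sin θ)) {σ : ℝ}
    (hσ : 0 < σ) (hσθ : σ < Real.tan θ) :
    ∃ c : ℝ, 0 < c ∧ ∃ᶠ n : ℕ in atTop, Rel n θ σ ((2 : ℝ) ^ (-c * n)) := by
  obtain ⟨c, hc, hd⟩ := dichotomy h0 h1 hσ hσθ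
  refine ⟨c, hc, ?_⟩
  have hlt : liminf (codeRate θ) atTop < -Real.logb 2 (Real.sin θ) + c := by rw [h]; linarith
  have hf := frequently_lt_of_liminf_lt (bdd_above h0 h1).isCoboundedUnder_ge hlt
  refine (hf.and_eventually (hd.and (eventually_ge_atTop 2))).mono ?_
  rintro n ⟨h3, h2, h4⟩
  rcases h2 with h2 | h2
  · rw [rate_ge h0 h1 h4] at h2
    linarith
  · exact h2

omit h0 h1 in
lemma small_ev {c p : ℝ} (hc : 0 < c) (hp : 0 < p) : ∀ᶠ n : ℕ in atTop, (2 : ℝ) ^ (-c * n) < p := by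
  have hlim : Tendsto (fun n : ℕ => ((2 : ℝ) ^ (-c)) ^ n) atTop (𝓝 0) :=
    tendsto_pow_atTop_nhds_zero_of_lt_one (by positivity)
      (Real.rpow_lt_one_of_one_lt_of_neg (by norm_num) (by linarith))
  filter_upwards [hlim.eventually (gt_mem_nhds hp)] with n hn
  rwa [Real.rpow_mul (by norm_num), Real.rpow_natCast]

/-- from all codes to a largest code -/
theorem opt_of_rel_ev {σ : ℝ}
    (h : ∃ c : ℝ, 0 < c ∧ ∀ᶠ n : ℕ in atTop, Rel n θ σ ((2 : ℝ) ^ (-c * n))) :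
    ∃ η : ℝ, η < 1 ∧ ∀ᶠ n : ℕ in atTop, OptRel n θ σ η := by
  obtain ⟨c, hc, h⟩ := h
  refine ⟨1 / 2, by norm_num, ?_⟩
  filter_upwards [h, small_ev hc (show (0 : ℝ) < 1 / 2 by norm_num), eventually_ge_atTop 2]
    with n h2 h3 h4
  exact (h2.mono h3.le).opt h0 h1 h4

theorem opt_of_rel_fr {σ : ℝ}
    (h : ∃ c : ℝ, 0 < c ∧ ∃ᶠ n : ℕ in atTop, Rel n θ σ ((2 : ℝ) ^ (-c * n))) :
    ∃ η : ℝ, η < 1 ∧ ∃ᶠ n : ℕ in atTop, OptRel n θ σ η := by
  obtain ⟨c, hc, h⟩ := h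
  refine ⟨1 / 2, by norm_num, ?_⟩
  refine (h.and_eventually ((small_ev hc (show (0 : ℝ) < 1 / 2 by norm_num)).and
    (eventually_ge_atTop 2))).mono ?_
  rintro n ⟨h2, h3, h4⟩
  exact (h2.mono h3.le).opt h0 h1 h4

/-- the common part of the converses -/
lemma not_opt {κ : ℝ} (hκ : 0 < κ) :
    ∃ σ : ℝ, 0 < σ ∧ σ < Real.tan θ ∧ ∀ η : ℝ, η < 1 → ∀ᶠ n : ℕ in atTop,
      -Real.logb 2 (Real.sin θ) + κ ≤ codeRate θ n → ¬ OptRel n θ σ η := by
  obtain ⟨σ, hσ, hσθ, c, hc, h⟩ := strong_converse h0 h1 hκ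
  refine ⟨σ, hσ, hσθ, fun η hη => ?_⟩
  filter_upwards [h, small_ev hc (show (0 : ℝ) < 1 - η by linarith), eventually_ge_atTop 2]
    with n h2 h3 h4 hrate
  rintro ⟨C, hC, hCc, D, hD, hDp⟩
  have hpos := sphMax_pos h4 (sin_half h0 h1)
  have hC0 : C.Nonempty := by
    rw [← Finset.card_pos, hCc]
    exact_mod_cast hpos
  have := h2 C hC.1 hC0 (by rw [hCc]; exact (rate_ge h0 h1 h4).2 hrate) D hD
  linarith

theorem limsup_of_opt (h : ∀ σ : ℝ, 0 < σ → σ < Real.tan θ →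
    ∃ η : ℝ, η < 1 ∧ ∀ᶠ n : ℕ in atTop, OptRel n θ σ η) :
    limsup (codeRate θ) atTop = -Real.logb 2 (Real.sin θ) := by
  apply le_antisymm _ ((le_liminf h0 h1).trans (liminf_le_limsup' h0 h1))
  by_contra hcon
  push Not at hcon
  obtain ⟨x, hx1, hx2⟩ := exists_between hcon
  obtain ⟨σ, hσ, hσθ, hno⟩ := not_opt h0 h1 (κ := x + Real.logb 2 (Real.sin θ)) (by linarith)
  obtain ⟨η, hη, hopt⟩ := h σ hσ hσθ
  have hf := frequently_lt_of_lt_limsup bdd_below.isCoboundedUnder_le hx2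
  obtain ⟨n, h2, h3, h4⟩ := (hf.and_eventually (hopt.and (hno η hη))).exists
  exact h4 (by linarith) h3

theorem liminf_of_opt (h : ∀ σ : ℝ, 0 < σ → σ < Real.tan θ →
    ∃ η : ℝ, η < 1 ∧ ∃ᶠ n : ℕ in atTop, OptRel n θ σ η) :
    liminf (codeRate θ) atTop = -Real.logb 2 (Real.sin θ) := by
  apply le_antisymm _ (le_liminf h0 h1)
  by_contra hcon
  push Not at hcon
  obtain ⟨x, hx1, hx2⟩ := exists_between hcon
  obtain ⟨σ, hσ, hσθ, hno⟩ := not_opt h0 h1 (κ := x + Real.logb 2 (Real.sin θ)) (by linarith)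
  obtain ⟨η, hη, hopt⟩ := h σ hσ hσθ
  have hf := eventually_lt_of_lt_liminf hx2 bdd_below
  obtain ⟨n, h3, h2, h4⟩ := (hopt.and_eventually (hf.and (hno η hη))).exists
  exact h4 (by linarith) h3

end

end Pool.Agent.H85G
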