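import Mathlib
import Pool.Agent.Helper584.BT.Gauss

/-! The Gaussian distribution on `ℝⁿ`: concentration and tails (for MP_b5f63d_co). -/

open MeasureTheory Metric Set Filter
open scoped Topology ENNReal RealInnerProductSpace

namespace Pool.Agent.H85G

/-- Euclidean space -/
abbrev V (n : ℕ) := EuclideanSpace ℝ (Fin n)

/-- the density of the centred Gaussian distribution on `ℝⁿ` with covariance `s² I` -/
noncomputable def gauss (n : ℕ) (s : ℝ) (z : V n) : ℝ :=
  (2 * Real.pi * s ^ 2) ^ (-(n : ℝ) / 2) * Real.exp (-‖z‖ ^ 2 / (2 * s ^ 2))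

/-- the centred Gaussian distribution on `ℝⁿ` with covariance `s² I` -/
noncomputable def noise (n : ℕ) (s : ℝ) : Measure (V n) :=
  volume.withDensity fun z => ENNReal.ofReal (gauss n s z)

variable {n : ℕ} {s : ℝ}

lemma gauss_nonneg (z : V n) : 0 ≤ gauss n s z := by
  unfold gauss; positivity

lemma gauss_pos (hs : 0 < s) (z : V n) : 0 < gauss n s z := by
  unfold gauss; positivity

lemma measurable_gauss : Measurable (gauss n s) := by
  unfold gauss
  apply Measurable.const_mul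
  apply Real.measurable_exp.comp
  exact ((measurable_norm.pow_const 2).neg).div_const _

lemma lint_exp {b : ℝ} (hb : 0 < b) :
    ∫⁻ z : V n, ENNReal.ofReal (Real.exp (-b * ‖z‖ ^ 2)) =
      ENNReal.ofReal ((Real.pi / b) ^ ((n : ℝ) / 2)) := by
  have h1 := GaussianFourier.integral_rexp_neg_mul_sq_norm (V := V n) hb
  rw [finrank_euclideanSpace_fin] at h1
  have hint : Integrable fun z : V n => Real.exp (-b * ‖z‖ ^ 2) := by
    by_contra hcon
    rw [integral_undef hcon] at h1
    have : 0 < (Real.pi / b) ^ ((n : ℝ) / 2) := by positivity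
    linarith
  rw [← h1, ofReal_integral_eq_lintegral_ofReal hint
    (Eventually.of_forall fun z => (Real.exp_pos _).le)]

lemma noise_apply {A : Set (V n)} (hA : MeasurableSet A) :
    noise n s A = ∫⁻ z in A, ENNReal.ofReal (gauss n s z) := by
  unfold noise
  rw [withDensity_apply _ hA]

lemma lint_c_exp {c b : ℝ} (hc : 0 ≤ c) (hb : 0 < b) :
    ∫⁻ z : V n, ENNReal.ofReal (c * Real.exp (-b * ‖z‖ ^ 2)) =
      ENNReal.ofReal (c * (Real.pi / b) ^ ((n : ℝ) / 2)) := by
  simp_rw [ENNReal.ofReal_mul hc]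
  rw [lintegral_const_mul, lint_exp hb]
  exact ENNReal.measurable_ofReal.comp (Real.measurable_exp.comp
    ((measurable_norm.pow_const 2).const_mul _))

lemma gauss_eq (z : V n) : gauss n s z =
    (2 * Real.pi * s ^ 2) ^ (-(n : ℝ) / 2) * Real.exp (-(1 / (2 * s ^ 2)) * ‖z‖ ^ 2) := by
  unfold gauss
  congr 2
  ring

lemma norm_const (hs : 0 < s) : (2 * Real.pi * s ^ 2) ^ (-(n : ℝ) / 2) *
    (2 * Real.pi * s ^ 2) ^ ((n : ℝ) / 2) = 1 := by
  rw [← Real.rpow_add (by positivity), show -(n : ℝ) / 2 + (n : ℝ) / 2 = 0 by ring, Real.rpow_zero]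

lemma noise_univ (hs : 0 < s) : noise n s univ = 1 := by
  rw [noise_apply MeasurableSet.univ, setLIntegral_univ]
  simp_rw [gauss_eq]
  rw [lint_c_exp (by positivity) (by positivity)]
  have : Real.pi / (1 / (2 * s ^ 2)) = 2 * Real.pi * s ^ 2 := by field_simp
  rw [this, norm_const hs, ENNReal.ofReal_one]

lemma isProb (hs : 0 < s) : IsProbabilityMeasure (noise n s) := ⟨noise_univ hs⟩

lemma noise_le_one (hs : 0 < s) (A : Set (V n)) : noise n s A ≤ 1 := by
  rw [← noise_univ (n := n) hs]; exact measure_mono (subset_univ _)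

/-- scaling -/
lemma noise_scale (hs : 0 < s) {l : ℝ} (hl : 0 < l) {A : Set (V n)} (hA : MeasurableSet A) :
    noise n s {z | l • z ∈ A} = noise n (l * s) A := by
  have hm : MeasurableSet {z : V n | l • z ∈ A} := (measurable_const_smul l) hA
  rw [noise_apply hm, noise_apply hA, ← lintegral_indicator hm, ← lintegral_indicator hA]
  have h1 : ∀ z : V n, ({z : V n | l • z ∈ A}.indicator fun z => ENNReal.ofReal (gauss n s z)) z =
      (A.indicator fun w => ENNReal.ofReal (l ^ n * gauss n (l * s) w)) (l • z) := by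
    intro z
    by_cases h : l • z ∈ A
    · rw [indicator_of_mem (show z ∈ {z : V n | l • z ∈ A} from h), indicator_of_mem h]
      congr 1
      unfold gauss
      rw [norm_smul, Real.norm_of_nonneg hl.le]
      have e1 : 2 * Real.pi * (l * s) ^ 2 = l ^ 2 * (2 * Real.pi * s ^ 2) := by ring
      have e2 : (l ^ 2 : ℝ) ^ (-(n : ℝ) / 2) = (l ^ n)⁻¹ := by
        rw [← Real.rpow_natCast l 2, ← Real.rpow_mul hl.le, ← Real.rpow_natCast l n,
          ← Real.rpow_neg hl.le]
        congr 1; push_cast; ring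
      have e3 : -(l * ‖z‖) ^ 2 / (2 * (l * s) ^ 2) = -‖z‖ ^ 2 / (2 * s ^ 2) := by
        field_simp
      have e4 := Real.mul_rpow (x := l ^ 2) (y := 2 * Real.pi * s ^ 2) (z := -(n : ℝ) / 2)
        (by positivity) (by positivity)
      rw [e1, e4, e2, e3, ← mul_assoc, ← mul_assoc,
        mul_inv_cancel₀ (by positivity), one_mul]
    · rw [indicator_of_notMem (show z ∉ {z : V n | l • z ∈ A} from h), indicator_of_notMem h]
  simp_rw [h1]
  have hmeas : Measurable (A.indicator fun w : V n => ENNReal.ofReal (l ^ n * gauss n (l * s) w)) :=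
    (ENNReal.measurable_ofReal.comp (measurable_gauss.const_mul _)).indicator hA
  rw [Pool.Agent.Helper584.BT.rot_scale volume hmeas hl.ne', finrank_euclideanSpace_fin,
    ← lintegral_const_mul _ hmeas]
  congr 1
  ext w
  by_cases h : w ∈ A
  · rw [indicator_of_mem h, indicator_of_mem h, ENNReal.ofReal_mul (by positivity), ← mul_assoc,
      ← ENNReal.ofReal_mul (abs_nonneg _), abs_of_pos (by positivity),
      inv_mul_cancel₀ (by positivity), ENNReal.ofReal_one, one_mul]
  · rw [indicator_of_notMem h, indicator_of_notMem h, mul_zero]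

/-- concentration: two distant sets cannot both be large -/
lemma noise_sep (hs : 0 < s) {A B : Set (V n)} (hA : MeasurableSet A) (hB : MeasurableSet B)
    {ε : ℝ} (hε : 0 ≤ ε) (h : ∀ x ∈ A, ∀ y ∈ B, ε ≤ ‖x - y‖) :
    noise n s A * noise n s B ≤ ENNReal.ofReal (Real.exp (-ε ^ 2 / (4 * s ^ 2))) := by
  set F : V n → ℝ≥0∞ := A.indicator fun z => ENNReal.ofReal (gauss n s z) with hF
  set G : V n → ℝ≥0∞ := B.indicator fun z => ENNReal.ofReal (gauss n s z) with hG
  set H : V n → ℝ≥0∞ := fun z =>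
    ENNReal.ofReal (Real.exp (-ε ^ 2 / (8 * s ^ 2)) * gauss n s z) with hH
  have hg : Measurable fun z : V n => ENNReal.ofReal (gauss n s z) :=
    ENNReal.measurable_ofReal.comp measurable_gauss
  have key := Pool.Agent.Helper584.BT.pln Pool.Agent.Helper584.BT.pl1 n F G H (hg.indicator hA)
    (hg.indicator hB) (ENNReal.measurable_ofReal.comp (measurable_gauss.const_mul _)) (by
    intro x y
    by_cases hx : x ∈ A
    · by_cases hy : y ∈ B
      · rw [hF, hG, indicator_of_mem hx, indicator_of_mem hy, hH]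
        simp only
        rw [← ENNReal.ofReal_mul (gauss_nonneg _), ← ENNReal.ofReal_pow (by
          exact mul_nonneg (Real.exp_pos _).le (gauss_nonneg _))]
        apply ENNReal.ofReal_le_ofReal
        unfold gauss
        set c : ℝ := (2 * Real.pi * s ^ 2) ^ (-(n : ℝ) / 2) with hc
        have hc0 : 0 < c := by positivity
        set m : V n := (2 : ℝ)⁻¹ • (x + y) with hm
        have h1 : ‖x‖ ^ 2 + ‖y‖ ^ 2 = 2 * ‖m‖ ^ 2 + ‖x - y‖ ^ 2 / 2 := by
          rw [hm, norm_smul, mul_pow, norm_add_sq_real, norm_sub_sq_real]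
          norm_num
          ring
        have h2 : ε ^ 2 ≤ ‖x - y‖ ^ 2 := pow_le_pow_left₀ hε (h x hx y hy) 2
        calc c * Real.exp (-‖x‖ ^ 2 / (2 * s ^ 2)) * (c * Real.exp (-‖y‖ ^ 2 / (2 * s ^ 2)))
            = c ^ 2 * Real.exp (-(‖x‖ ^ 2 + ‖y‖ ^ 2) / (2 * s ^ 2)) := by
              rw [show -(‖x‖ ^ 2 + ‖y‖ ^ 2) / (2 * s ^ 2) =
                -‖x‖ ^ 2 / (2 * s ^ 2) + -‖y‖ ^ 2 / (2 * s ^ 2) by ring, Real.exp_add]
              ring
          _ ≤ c ^ 2 * Real.exp (-(2 * ‖m‖ ^ 2 + ε ^ 2 / 2) / (2 * s ^ 2)) := by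
              apply mul_le_mul_of_nonneg_left _ (by positivity)
              apply Real.exp_le_exp.2
              apply div_le_div_of_nonneg_right _ (by positivity)
              rw [h1]; linarith
          _ = _ := by
              rw [show -(2 * ‖m‖ ^ 2 + ε ^ 2 / 2) / (2 * s ^ 2) =
                (-ε ^ 2 / (8 * s ^ 2) + -ε ^ 2 / (8 * s ^ 2)) +
                (-‖m‖ ^ 2 / (2 * s ^ 2) + -‖m‖ ^ 2 / (2 * s ^ 2)) by field_simp; ring,
                Real.exp_add, Real.exp_add, Real.exp_add]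
              ring
      · rw [hG, indicator_of_notMem hy, mul_zero]; exact zero_le
    · rw [hF, indicator_of_notMem hx, zero_mul]; exact zero_le)
  rw [hF, hG, lintegral_indicator hA, lintegral_indicator hB, ← noise_apply hA,
    ← noise_apply hB] at key
  refine key.trans (le_of_eq ?_)
  have hHi : ∫⁻ z, H z = ENNReal.ofReal (Real.exp (-ε ^ 2 / (8 * s ^ 2))) := by
    rw [hH]
    simp_rw [ENNReal.ofReal_mul (Real.exp_pos _).le]
    rw [lintegral_const_mul _ hg, ← setLIntegral_univ, ← noise_apply MeasurableSet.univ,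
      noise_univ hs, mul_one]
  rw [hHi, ← ENNReal.ofReal_pow (Real.exp_pos _).le, ← Real.exp_nat_mul]
  congr 2
  push_cast
  field_simp
  ring

/-- volumes through the noise -/
lemma vol_le_noise (hs : 0 < s) {A : Set (V n)} (hA : MeasurableSet A) {R2 : ℝ}
    (h : ∀ z ∈ A, ‖z‖ ^ 2 ≤ R2) :
    volume A ≤ ENNReal.ofReal ((2 * Real.pi * s ^ 2) ^ ((n : ℝ) / 2) *
      Real.exp (R2 / (2 * s ^ 2))) * noise n s A := by
  have hg : Measurable fun z : V n => ENNReal.ofReal (gauss n s z) :=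
    ENNReal.measurable_ofReal.comp measurable_gauss
  rw [noise_apply hA, ← lintegral_const_mul _ hg, ← setLIntegral_one]
  apply setLIntegral_mono' hA
  intro z hz
  rw [← ENNReal.ofReal_mul (by positivity), ← ENNReal.ofReal_one]
  apply ENNReal.ofReal_le_ofReal
  unfold gauss
  have h1 : (2 * Real.pi * s ^ 2) ^ ((n : ℝ) / 2) * Real.exp (R2 / (2 * s ^ 2)) *
      ((2 * Real.pi * s ^ 2) ^ (-(n : ℝ) / 2) * Real.exp (-‖z‖ ^ 2 / (2 * s ^ 2))) =
      Real.exp (R2 / (2 * s ^ 2) + -‖z‖ ^ 2 / (2 * s ^ 2)) := by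
    rw [Real.exp_add]
    have := norm_const (n := n) hs
    linear_combination (Real.exp (R2 / (2 * s ^ 2)) * Real.exp (-‖z‖ ^ 2 / (2 * s ^ 2))) * this
  rw [h1]
  apply Real.one_le_exp
  have := h z hz
  rw [← add_div]
  apply div_nonneg _ (by positivity)
  linarith

lemma noise_le_vol (hs : 0 < s) {A : Set (V n)} (hA : MeasurableSet A) {R2 : ℝ}
    (h : ∀ z ∈ A, R2 ≤ ‖z‖ ^ 2) (x : V n) :
    noise n s A ≤ ENNReal.ofReal ((2 * Real.pi * s ^ 2) ^ (-(n : ℝ) / 2) *
      Real.exp (-R2 / (2 * s ^ 2))) * volume ((fun z => x + z) '' A) := by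
  rw [image_add_left, measure_preimage_add, noise_apply hA, ← setLIntegral_const]
  apply setLIntegral_mono' hA
  intro z hz
  apply ENNReal.ofReal_le_ofReal
  unfold gauss
  apply mul_le_mul_of_nonneg_left _ (by positivity)
  apply Real.exp_le_exp.2
  apply div_le_div_of_nonneg_right _ (by positivity)
  linarith [h z hz]

/-- lower tail of the norm -/
lemma lower_tail (hs : 0 < s) {b R2 : ℝ} (hb : 0 < b) :
    noise n s {z | ‖z‖ ^ 2 ≤ R2} ≤
      ENNReal.ofReal (Real.exp (b * R2) * (1 + 2 * b * s ^ 2) ^ (-(n : ℝ) / 2)) := by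
  have hA : MeasurableSet {z : V n | ‖z‖ ^ 2 ≤ R2} :=
    (isClosed_le (continuous_norm.pow 2) continuous_const).measurableSet
  rw [noise_apply hA]
  calc ∫⁻ z in {z : V n | ‖z‖ ^ 2 ≤ R2}, ENNReal.ofReal (gauss n s z)
      ≤ ∫⁻ z in {z : V n | ‖z‖ ^ 2 ≤ R2}, ENNReal.ofReal
        ((Real.exp (b * R2) * (2 * Real.pi * s ^ 2) ^ (-(n : ℝ) / 2)) *
          Real.exp (-(1 / (2 * s ^ 2) + b) * ‖z‖ ^ 2)) := by
        apply setLIntegral_mono' hA
        intro z hz
        apply ENNReal.ofReal_le_ofReal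
        unfold gauss
        rw [mul_comm (Real.exp (b * R2)), mul_assoc _ (Real.exp (b * R2))]
        apply mul_le_mul_of_nonneg_left _ (by positivity)
        rw [← Real.exp_add]
        apply Real.exp_le_exp.2
        have h1 : ‖z‖ ^ 2 ≤ R2 := hz
        have h2 : b * ‖z‖ ^ 2 ≤ b * R2 := mul_le_mul_of_nonneg_left h1 hb.le
        have h3 : -‖z‖ ^ 2 / (2 * s ^ 2) = -(1 / (2 * s ^ 2)) * ‖z‖ ^ 2 := by ring
        rw [h3]
        linarith
    _ ≤ ∫⁻ z : V n, ENNReal.ofReal
        ((Real.exp (b * R2) * (2 * Real.pi * s ^ 2) ^ (-(n : ℝ) / 2)) *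
          Real.exp (-(1 / (2 * s ^ 2) + b) * ‖z‖ ^ 2)) := setLIntegral_le_lintegral _ _
    _ = _ := by
        rw [lint_c_exp (by positivity) (by positivity)]
        congr 1
        have e1 : Real.pi / (1 / (2 * s ^ 2) + b) = (2 * Real.pi * s ^ 2) * (1 + 2 * b * s ^ 2)⁻¹ := by
          field_simp
        have e4 := Real.mul_rpow (x := 2 * Real.pi * s ^ 2) (y := (1 + 2 * b * s ^ 2)⁻¹)
          (z := (n : ℝ) / 2) (by positivity) (by positivity)
        rw [e1, e4, Real.inv_rpow (by positivity), ← Real.rpow_neg (by positivity), neg_div]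
        have := norm_const (n := n) hs
        rw [neg_div] at this
        linear_combination (Real.exp (b * R2) * (1 + 2 * b * s ^ 2) ^ (-((n : ℝ) / 2))) * this

/-- upper tail of the norm of the received vector -/
lemma upper_tail (hs : 0 < s) {b R2 : ℝ} (hb : 0 < b) (hb1 : 2 * b * s ^ 2 < 1) (x : V n) :
    noise n s {z | R2 ≤ ‖x + z‖ ^ 2} ≤
      ENNReal.ofReal (Real.exp (-(b * R2) + b * ‖x‖ ^ 2 / (1 - 2 * b * s ^ 2)) *
        (1 - 2 * b * s ^ 2) ^ (-(n : ℝ) / 2)) := by
  have hA : MeasurableSet {z : V n | R2 ≤ ‖x + z‖ ^ 2} :=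
    (isClosed_le continuous_const ((continuous_const.add continuous_id).norm.pow 2)).measurableSet
  set a : ℝ := 1 / (2 * s ^ 2) - b with ha
  have ha1 : a = (1 - 2 * b * s ^ 2) / (2 * s ^ 2) := by rw [ha]; field_simp
  have ha0 : 0 < a := by
    rw [ha1]; apply div_pos (by linarith) (by positivity)
  have h1b : 0 < 1 - 2 * b * s ^ 2 := by linarith
  set K : ℝ := Real.exp (-(b * R2) + b * ‖x‖ ^ 2 / (1 - 2 * b * s ^ 2)) with hK
  rw [noise_apply hA]
  calc ∫⁻ z in {z : V n | R2 ≤ ‖x + z‖ ^ 2}, ENNReal.ofReal (gauss n s z)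
      ≤ ∫⁻ z in {z : V n | R2 ≤ ‖x + z‖ ^ 2}, ENNReal.ofReal
        ((K * (2 * Real.pi * s ^ 2) ^ (-(n : ℝ) / 2)) *
          Real.exp (-a * ‖z - (b / a) • x‖ ^ 2)) := by
        apply setLIntegral_mono' hA
        intro z hz
        apply ENNReal.ofReal_le_ofReal
        unfold gauss
        rw [mul_comm K, mul_assoc _ K]
        apply mul_le_mul_of_nonneg_left _ (by positivity)
        rw [hK, ← Real.exp_add]
        apply Real.exp_le_exp.2
        have h1 : R2 ≤ ‖x + z‖ ^ 2 := hz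
        have h2 : b * R2 ≤ b * ‖x + z‖ ^ 2 := mul_le_mul_of_nonneg_left h1 hb.le
        have h3 : -‖z‖ ^ 2 / (2 * s ^ 2) + b * ‖x + z‖ ^ 2 =
            -a * ‖z - (b / a) • x‖ ^ 2 + b * ‖x‖ ^ 2 / (1 - 2 * b * s ^ 2) := by
          rw [norm_add_sq_real, norm_sub_sq_real, norm_smul, Real.norm_eq_abs, mul_pow, sq_abs,
            inner_smul_right, real_inner_comm x z, ha1]
          have hQ : 1 - 2 * b * s ^ 2 ≠ 0 := h1b.ne'
          obtain ⟨Q, hQd⟩ : ∃ Q : ℝ, Q = 1 - 2 * b * s ^ 2 := ⟨_, rfl⟩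
          rw [← hQd] at hQ ⊢
          have hbQ : b = (1 - Q) / (2 * s ^ 2) := by
            rw [hQd]; field_simp; ring
          rw [hbQ]
          field_simp
          ring
        linarith
    _ ≤ ∫⁻ z : V n, ENNReal.ofReal
        ((K * (2 * Real.pi * s ^ 2) ^ (-(n : ℝ) / 2)) *
          Real.exp (-a * ‖z - (b / a) • x‖ ^ 2)) := setLIntegral_le_lintegral _ _
    _ = ∫⁻ z : V n, ENNReal.ofReal
        ((K * (2 * Real.pi * s ^ 2) ^ (-(n : ℝ) / 2)) *
          Real.exp (-a * ‖z‖ ^ 2)) :=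
        lintegral_sub_right_eq_self (fun z : V n => ENNReal.ofReal
        ((K * (2 * Real.pi * s ^ 2) ^ (-(n : ℝ) / 2)) * Real.exp (-a * ‖z‖ ^ 2))) _
    _ = _ := by
        rw [lint_c_exp (by positivity) (by positivity)]
        congr 1
        have e1 : Real.pi / a = (2 * Real.pi * s ^ 2) * (1 - 2 * b * s ^ 2)⁻¹ := by
          rw [ha1]; field_simp
        have e4 := Real.mul_rpow (x := 2 * Real.pi * s ^ 2) (y := (1 - 2 * b * s ^ 2)⁻¹)
          (z := (n : ℝ) / 2) (by positivity) (by positivity)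
        rw [e1, e4, Real.inv_rpow h1b.le, ← Real.rpow_neg h1b.le, neg_div]
        have := norm_const (n := n) hs
        rw [neg_div] at this
        linear_combination (K * (1 - 2 * b * s ^ 2) ^ (-((n : ℝ) / 2))) * this

end Pool.Agent.H85G
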