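import Pool.Agent.H85G.Cell

/-! A vector near the boundary of the cap of a codeword and far from all caps is sent into the
cell by the linear map. -/

open MeasureTheory Metric Set Filter
open scoped Topology ENNReal InnerProductSpace
open Pool.Agent.H818R2

namespace Pool.Agent.H85G

variable {n : ℕ}

lemma into_cell {C : Finset (V n)} {θ : ℝ} (hC : IsSphCode n θ C) {x : V n} (hx : x ∈ C)
    (ha : 0 ≤ Real.cos θ) {δ t τ : ℝ} (hδ : 0 ≤ δ) (ht : 0 < t) (hτ : 0 ≤ τ)
    (h1 : t * (Real.cos θ + δ - Real.cos θ ^ 2) < 1 - Real.cos θ)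
    (h2 : t * (Real.cos θ + δ) < 1) {y : V n} (hy : ‖y‖ ≤ 1)
    (hxy : Real.cos θ * ‖y‖ ≤ ⟪x, y⟫_ℝ) (hall : ∀ w ∈ C, ⟪w, y⟫_ℝ ≤ (Real.cos θ + δ) * ‖y‖) :
    lmap x τ t y ∈ cell C x := by
  intro w hw hwx
  set a : ℝ := Real.cos θ with had
  set p : ℝ := ⟪x, y⟫_ℝ with hp
  set b : ℝ := ⟪x, w⟫_ℝ with hb
  set ρ : ℝ := ‖y‖ with hρ
  have hρ0 : 0 ≤ ρ := norm_nonneg y
  have hx1 := hC.1 x hx
  have hw1 := hC.1 w hw
  have hba : b ≤ a := hC.2 x hx w hw hwx.symm
  have hb1 : -1 ≤ b := by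
    have := abs_real_inner_le_norm x w
    rw [hx1, hw1, mul_one] at this
    exact (abs_le.1 this).1
  have hwy : ⟪y, w⟫_ℝ ≤ (a + δ) * ρ := by
    rw [real_inner_comm]; exact hall w hw
  have hpy : p ≤ (a + δ) * ρ := hall x hx
  have hp0 : 0 ≤ p := le_trans (mul_nonneg ha hρ0) hxy
  rw [normSq_sub hx1 hw1, lmap_apply ht, inner_add_left, inner_smul_left, inner_smul_left,
    inner_sub_right, inner_sub_right, real_inner_self_eq_norm_sq, hx1, real_inner_comm x y, ← hp,
    ← hb]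
  simp only [conj_trivial]
  have e : t * (⟪y, w⟫_ℝ - p) + (τ - t) * p * (b - 1 ^ 2) =
      t * (⟪y, w⟫_ℝ - p * b) + τ * p * (b - 1) := by ring
  rw [e]
  have ha1 : a ≤ 1 := Real.cos_le_one θ
  have h3 : τ * p * (b - 1) ≤ 0 :=
    mul_nonpos_of_nonneg_of_nonpos (mul_nonneg hτ hp0) (by linarith)
  have h4 : t * (⟪y, w⟫_ℝ - p * b) ≤ t * ((a + δ) * ρ - p * b) :=
    mul_le_mul_of_nonneg_left (by linarith) ht.le
  -- the two end points
  have h5 : t * ((a + δ) * ρ - p * a) - (1 - a) < 0 := by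
    have e1 : (a + δ) * ρ - p * a ≤ (a + δ - a ^ 2) * ρ := by nlinarith
    have e2 : 0 ≤ a + δ - a ^ 2 := by nlinarith
    have e3 : (a + δ - a ^ 2) * ρ ≤ a + δ - a ^ 2 := by nlinarith
    have e4 := mul_le_mul_of_nonneg_left (e1.trans e3) ht.le
    linarith
  have h6 : t * ((a + δ) * ρ + p) - 2 < 0 := by
    have e1 : (a + δ) * ρ + p ≤ 2 * (a + δ) := by nlinarith
    have e4 := mul_le_mul_of_nonneg_left e1 ht.le
    nlinarith
  have h7 : (a + 1) * (t * ((a + δ) * ρ - p * b) - (1 - b)) =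
      (a - b) * (t * ((a + δ) * ρ + p) - 2) + (b + 1) * (t * ((a + δ) * ρ - p * a) - (1 - a)) := by
    ring
  have h8 : (a + 1) * (t * ((a + δ) * ρ - p * b) - (1 - b)) < 0 := by
    rw [h7]
    rcases hba.eq_or_lt with h | h
    · have : 0 < b + 1 := by linarith
      rw [h, sub_self, zero_mul, zero_add]
      apply mul_neg_of_pos_of_neg _ h5
      linarith
    · have e1 : (a - b) * (t * ((a + δ) * ρ + p) - 2) < 0 :=
        mul_neg_of_pos_of_neg (by linarith) h6
      have e2 : (b + 1) * (t * ((a + δ) * ρ - p * a) - (1 - a)) ≤ 0 :=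
        mul_nonpos_of_nonneg_of_nonpos (by linarith) h5.le
      linarith
  have h9 : t * ((a + δ) * ρ - p * b) - (1 - b) < 0 := by
    by_contra hcon
    push Not at hcon
    have := mul_nonneg (show 0 ≤ a + 1 by linarith) hcon
    linarith
  linarith

lemma exists_delta {θ T : ℝ} (h0 : 0 < θ) (h1 : θ < Real.pi / 2) (hT : 0 < T)
    (hT1 : T < Real.tan θ) :
    ∃ δ : ℝ, 0 < δ ∧ T / Real.sin θ * (Real.cos θ + δ - Real.cos θ ^ 2) < 1 - Real.cos θ ∧
      T / Real.sin θ * (Real.cos θ + δ) < 1 ∧ Real.cos θ + δ < 1 := by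
  have hS : 0 < Real.sin θ := Real.sin_pos_of_pos_of_lt_pi h0 (by linarith [Real.pi_pos])
  have ha : 0 < Real.cos θ := Real.cos_pos_of_mem_Ioo ⟨by linarith [Real.pi_pos], h1⟩
  have ha1 : Real.cos θ < 1 := by
    have := Real.sin_sq_add_cos_sq θ
    nlinarith
  set a := Real.cos θ
  set S := Real.sin θ
  set t : ℝ := T / S with ht
  have ht0 : 0 < t := by positivity
  have hta : t * a < 1 := by
    rw [Real.tan_eq_sin_div_cos, lt_div_iff₀ ha] at hT1
    rw [ht, div_mul_eq_mul_div, div_lt_one hS]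
    exact hT1
  set u : ℝ := 1 - t * a with hu
  have hu0 : 0 < u := by rw [hu]; linarith
  have hu1 : u ≤ 1 := by rw [hu]; nlinarith
  have h1a : 0 < 1 - a := by linarith
  refine ⟨(1 - a) * u / (2 * (t + 1)), by positivity, ?_, ?_, ?_⟩
  · have h2 : t * ((1 - a) * u / (2 * (t + 1))) < (1 - a) * u := by
      rw [mul_div_assoc', div_lt_iff₀ (by positivity)]
      have : 0 < (1 - a) * u := by positivity
      nlinarith
    have h3 : t * (a - a ^ 2) = (1 - u) * (1 - a) := by rw [hu]; ring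
    nlinarith
  · have h2 : t * ((1 - a) * u / (2 * (t + 1))) < u := by
      rw [mul_div_assoc', div_lt_iff₀ (by positivity)]
      have : 0 < a * u := by positivity
      have : 0 < t * u := by positivity
      have : 0 < t * (a * u) := by positivity
      nlinarith
    rw [mul_add]
    linarith
  · have h2 : (1 - a) * u / (2 * (t + 1)) < 1 - a := by
      rw [div_lt_iff₀ (by positivity)]
      nlinarith
    linarith

end Pool.Agent.H85G
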