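import Pool.Agent.H85G.Ball

/-! Volumes of cones through linear maps. -/

open MeasureTheory Metric Set Filter
open scoped Topology ENNReal InnerProductSpace
open Pool.Agent.H818R2

namespace Pool.Agent.H85G

variable {n : ℕ}

/-- the linear map multiplying `x` by `τ` and the orthogonal complement of `x` by `t` -/
noncomputable def lmap (x : V n) (τ t : ℝ) : V n →ₗ[ℝ] V n :=
  t • LinearMap.transvection (innerₗ (V n) x) (((τ - t) / t) • x)

lemma lmap_apply {x : V n} {τ t : ℝ} (ht : 0 < t) (y : V n) :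
    lmap x τ t y = t • y + ((τ - t) * ⟪x, y⟫_ℝ) • x := by
  unfold lmap
  rw [LinearMap.smul_apply, LinearMap.transvection.apply, innerₗ_apply_apply, smul_add, smul_smul,
    smul_smul]
  congr 2
  field_simp

lemma lmap_det {x : V n} (hx : ‖x‖ = 1) {τ t : ℝ} (ht : 0 < t) :
    LinearMap.det (lmap x τ t) = t ^ n * (τ / t) := by
  unfold lmap
  rw [LinearMap.det_smul, finrank_euclideanSpace_fin, LinearMap.transvection.det,
    innerₗ_apply_apply, inner_smul_right, real_inner_self_eq_norm_sq, hx]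
  congr 1
  field_simp
  ring

lemma lmap_vol {x : V n} (hx : ‖x‖ = 1) {τ t : ℝ} (hτ : 0 < τ) (ht : 0 < t) (A : Set (V n)) :
    volume.real (lmap x τ t '' A) = t ^ n * (τ / t) * volume.real A := by
  rw [measureReal_def, Measure.addHaar_image_linearMap, lmap_det hx ht, ENNReal.toReal_mul,
    ENNReal.toReal_ofReal (abs_nonneg _), abs_of_pos (by positivity), measureReal_def]

lemma lmap_norm {x : V n} (hx : ‖x‖ = 1) {τ t : ℝ} (ht : 0 < t) (y : V n) :
    ‖lmap x τ t y‖ ^ 2 = t ^ 2 * (‖y‖ ^ 2 - ⟪x, y⟫_ℝ ^ 2) + τ ^ 2 * ⟪x, y⟫_ℝ ^ 2 := by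
  rw [lmap_apply ht, norm_add_sq_real, norm_smul, norm_smul, hx, mul_pow, mul_pow,
    Real.norm_eq_abs, Real.norm_eq_abs, sq_abs, sq_abs, inner_smul_left, inner_smul_right,
    real_inner_comm x y]
  simp only [conj_trivial]
  ring

lemma pow_ge (hn : 0 < n) : (1 / 3 : ℝ) ≤ ((n : ℝ) / (n + 1)) ^ n := by
  have hn0 : (0 : ℝ) < n := by exact_mod_cast hn
  have h1 : (((n : ℝ) + 1) / n) ^ n ≤ 3 := by
    have h2 : ((n : ℝ) + 1) / n ≤ Real.exp (1 / n) := by
      have := Real.add_one_le_exp (1 / (n : ℝ))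
      refine le_trans (le_of_eq ?_) this
      field_simp
      ring
    have h3 := pow_le_pow_left₀ (by positivity) h2 n
    rw [← Real.exp_nat_mul] at h3
    have e : (n : ℝ) * (1 / n) = 1 := by field_simp
    rw [e] at h3
    have := Real.exp_one_lt_d9
    linarith
  have h4 : ((n : ℝ) / (n + 1)) ^ n = ((((n : ℝ) + 1) / n) ^ n)⁻¹ := by
    rw [← inv_pow, inv_div]
  rw [h4, one_div]
  exact inv_anti₀ (by positivity) h1

/-- the volume of a cap cone -/
lemma cone_vol_le (hn : 0 < n) {x : V n} (hx : ‖x‖ = 1) {q S : ℝ} (hq : 0 ≤ q) (hS : 0 < S)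
    (hqS : q ^ 2 + S ^ 2 = 1) :
    volume.real {y : V n | ‖y‖ < 1 ∧ q * ‖y‖ ≤ ⟪x, y⟫_ℝ} ≤
      3 * (n + 1) / S * S ^ n * vb (V n) := by
  have hn0 : (0 : ℝ) < n := by exact_mod_cast hn
  set A : Set (V n) := {y : V n | ‖y‖ < 1 ∧ q * ‖y‖ ≤ ⟪x, y⟫_ℝ} with hA
  set τ : ℝ := 1 / (n + 1) with hτ
  set t : ℝ := (n / (n + 1)) / S with ht
  have hτ0 : 0 < τ := by positivity
  have ht0 : 0 < t := by positivity
  have h1 : lmap x τ t '' A ⊆ ball 0 1 := by
    rintro _ ⟨y, ⟨hy1, hy2⟩, rfl⟩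
    rw [mem_ball_zero_iff]
    have hN := lmap_norm hx (τ := τ) ht0 y
    have hp0 : 0 ≤ ⟪x, y⟫_ℝ := le_trans (by positivity) hy2
    have hp1 : ⟪x, y⟫_ℝ ≤ ‖y‖ := by
      have := real_inner_le_norm x y
      rwa [hx, one_mul] at this
    have h2 : q ^ 2 * ‖y‖ ^ 2 ≤ ⟪x, y⟫_ℝ ^ 2 := by
      rw [← mul_pow]; exact pow_le_pow_left₀ (by positivity) hy2 2
    have h3 : ‖y‖ ^ 2 - ⟪x, y⟫_ℝ ^ 2 ≤ S ^ 2 * ‖y‖ ^ 2 := by nlinarith
    have h4 : ⟪x, y⟫_ℝ ^ 2 ≤ ‖y‖ ^ 2 := pow_le_pow_left₀ hp0 hp1 2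
    have h5 : ‖lmap x τ t y‖ ^ 2 ≤ (t ^ 2 * S ^ 2 + τ ^ 2) * ‖y‖ ^ 2 := by
      rw [hN]
      have e1 := mul_le_mul_of_nonneg_left h3 (sq_nonneg t)
      have e2 := mul_le_mul_of_nonneg_left h4 (sq_nonneg τ)
      nlinarith
    have h6 : t ^ 2 * S ^ 2 + τ ^ 2 ≤ 1 := by
      rw [ht, hτ, ← mul_pow, div_mul_cancel₀ _ hS.ne', div_pow, div_pow, ← add_div,
        div_le_one (by positivity)]
      nlinarith
    have h7 : ‖y‖ ^ 2 < 1 := by nlinarith [norm_nonneg y]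
    have h8 : ‖lmap x τ t y‖ ^ 2 < 1 := by
      refine lt_of_le_of_lt h5 ?_
      nlinarith [sq_nonneg ‖y‖]
    by_contra hcon
    push Not at hcon
    nlinarith
  have h2 : t ^ n * (τ / t) * volume.real A ≤ vb (V n) := by
    rw [← lmap_vol hx hτ0 ht0]
    exact measureReal_mono h1 measure_ball_lt_top.ne
  have h3 : (1 / 3) / S ^ n ≤ t ^ n := by
    rw [ht, div_pow]
    exact div_le_div_of_nonneg_right (pow_ge hn) (by positivity)
  have h4 : S / (n + 1) ≤ τ / t := by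
    rw [hτ, ht, le_div_iff₀ (by positivity)]
    field_simp
    linarith
  have h5 : (1 / 3) / S ^ n * (S / (n + 1)) ≤ t ^ n * (τ / t) :=
    mul_le_mul h3 h4 (by positivity) (by positivity)
  have h6 : (1 / 3) / S ^ n * (S / (n + 1)) * volume.real A ≤ vb (V n) :=
    (mul_le_mul_of_nonneg_right h5 measureReal_nonneg).trans h2
  have h7 : volume.real A = 3 * (n + 1) / S * S ^ n *
      ((1 / 3) / S ^ n * (S / (n + 1)) * volume.real A) := by field_simp
  rw [h7]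
  exact mul_le_mul_of_nonneg_left h6 (by positivity)

/-- the volume of a set which a linear map sends into a cell -/
lemma vol_into (hn : 0 < n) {x : V n} (hx : ‖x‖ = 1) {S T : ℝ} (hS : 0 < S) (hT : 0 < T)
    {A K : Set (V n)} (hAm : MeasurableSet A) (hK : MeasurableSet K)
    (hA : ∀ y ∈ A, ‖y‖ ≤ 1 ∧ ‖y‖ ^ 2 - ⟪x, y⟫_ℝ ^ 2 ≤ S ^ 2)
    (hAK : ∀ y ∈ A, lmap x (1 / (n + 1)) (T / S) y ∈ K) :
    volume.real A ≤ 3 * n * (n + 1) * (T / S) * Real.exp (1 / (2 * T ^ 2)) * S ^ n *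
      (noise n (T / √n)).real K * vb (V n) := by
  have hn0 : (0 : ℝ) < n := by exact_mod_cast hn
  set τ : ℝ := 1 / (n + 1) with hτ
  set t : ℝ := T / S with ht
  have hτ0 : 0 < τ := by positivity
  have ht0 : 0 < t := by positivity
  have hs : 0 < T / √n := by positivity
  have hs2 : (T / √n) ^ 2 = T ^ 2 / n := by
    rw [div_pow, Real.sq_sqrt hn0.le]
  set B : Set (V n) := lmap x τ t '' A with hB
  have hdet : LinearMap.det (lmap x τ t) ≠ 0 := by
    rw [lmap_det hx ht0]; positivity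
  have hBm : MeasurableSet B := by
    have := ((lmap x τ t).equivOfDetNeZero hdet).toContinuousLinearEquiv.toHomeomorph.toMeasurableEquiv.measurableEmbedding.measurableSet_image' hAm
    exact this
  have hBK : B ⊆ K := by
    rintro _ ⟨y, hy, rfl⟩
    exact hAK y hy
  have hBn : ∀ z ∈ B, ‖z‖ ^ 2 ≤ T ^ 2 + τ ^ 2 := by
    rintro _ ⟨y, hy, rfl⟩
    rw [lmap_norm hx ht0]
    obtain ⟨h1, h2⟩ := hA y hy
    have hp : ⟪x, y⟫_ℝ ^ 2 ≤ 1 := by
      have h3 := abs_real_inner_le_norm x y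
      rw [hx, one_mul] at h3
      have h4 : |⟪x, y⟫_ℝ| ≤ 1 := h3.trans h1
      rw [← sq_abs]
      exact pow_le_one₀ (abs_nonneg _) h4
    have e1 : t ^ 2 * (‖y‖ ^ 2 - ⟪x, y⟫_ℝ ^ 2) ≤ t ^ 2 * S ^ 2 :=
      mul_le_mul_of_nonneg_left h2 (sq_nonneg t)
    have e2 : t ^ 2 * S ^ 2 = T ^ 2 := by rw [ht, ← mul_pow, div_mul_cancel₀ _ hS.ne']
    have e3 : τ ^ 2 * ⟪x, y⟫_ℝ ^ 2 ≤ τ ^ 2 * 1 := mul_le_mul_of_nonneg_left hp (sq_nonneg τ)
    linarith
  have h1 := vol_le_noise hs hBm hBn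
  have h2 : noise n (T / √n) B ≤ noise n (T / √n) K := measure_mono hBK
  have hfin : noise n (T / √n) K ≠ ⊤ := ((noise_le_one hs K).trans_lt ENNReal.one_lt_top).ne
  have h3 : volume.real B ≤ ((2 * Real.pi * (T / √n) ^ 2) ^ ((n : ℝ) / 2) *
      Real.exp ((T ^ 2 + τ ^ 2) / (2 * (T / √n) ^ 2))) * (noise n (T / √n)).real K := by
    rw [measureReal_def, measureReal_def]
    apply ENNReal.toReal_le_of_le_ofReal (by positivity)
    refine (h1.trans (mul_le_mul_right h2 _)).trans (le_of_eq ?_)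
    rw [ENNReal.ofReal_mul (q := ((noise n (T / √n)) K).toReal) (by positivity),
      ENNReal.ofReal_toReal hfin]
  rw [lmap_vol hx hτ0 ht0] at h3
  have e1 : (2 * Real.pi * (T / √n) ^ 2) ^ ((n : ℝ) / 2) =
      T ^ n * (2 * Real.pi * (1 / n)) ^ ((n : ℝ) / 2) := by
    rw [hs2]
    have : 2 * Real.pi * (T ^ 2 / n) = T ^ 2 * (2 * Real.pi * (1 / n)) := by ring
    rw [this, Real.mul_rpow (by positivity) (by positivity)]
    congr 1
    rw [← Real.rpow_natCast T 2, ← Real.rpow_mul hT.le, ← Real.rpow_natCast T n]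
    congr 1; push_cast; ring
  have e2 : Real.exp ((T ^ 2 + τ ^ 2) / (2 * (T / √n) ^ 2)) ≤
      Real.exp ((n : ℝ) / 2) * Real.exp (1 / (2 * T ^ 2)) := by
    rw [← Real.exp_add, hs2]
    apply Real.exp_le_exp.2
    have h4 : (T ^ 2 + τ ^ 2) / (2 * (T ^ 2 / n)) = (n : ℝ) / 2 + (n * τ ^ 2) / (2 * T ^ 2) := by
      field_simp
    rw [h4]
    have h5 : (n : ℝ) * τ ^ 2 ≤ 1 := by
      rw [hτ, div_pow, one_pow, mul_one_div, div_le_one (by positivity)]
      nlinarith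
    have h6 := div_le_div_of_nonneg_right h5 (show (0 : ℝ) ≤ 2 * T ^ 2 by positivity)
    linarith
  set N : ℝ := (noise n (T / √n)).real K with hN
  have hN0 : 0 ≤ N := measureReal_nonneg
  have h4 : t ^ n * (τ / t) * volume.real A ≤
      T ^ n * (3 * n * vb (V n)) * Real.exp (1 / (2 * T ^ 2)) * N := by
    refine h3.trans ?_
    apply mul_le_mul_of_nonneg_right _ hN0
    rw [e1]
    calc T ^ n * (2 * Real.pi * (1 / n)) ^ ((n : ℝ) / 2) *
          Real.exp ((T ^ 2 + τ ^ 2) / (2 * (T / √n) ^ 2))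
        ≤ T ^ n * (2 * Real.pi * (1 / n)) ^ ((n : ℝ) / 2) *
          (Real.exp ((n : ℝ) / 2) * Real.exp (1 / (2 * T ^ 2))) :=
          mul_le_mul_of_nonneg_left e2 (by positivity)
      _ = T ^ n * bb n * Real.exp (1 / (2 * T ^ 2)) := by unfold bb; ring
      _ ≤ _ := by
          apply mul_le_mul_of_nonneg_right _ (Real.exp_pos _).le
          exact mul_le_mul_of_nonneg_left (le_vb hn) (by positivity)
  have h5 : volume.real A = (t / τ) / t ^ n * (t ^ n * (τ / t) * volume.real A) := by field_simp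
  rw [h5]
  refine (mul_le_mul_of_nonneg_left h4 (by positivity)).trans (le_of_eq ?_)
  have h6 : T ^ n / t ^ n = S ^ n := by
    rw [← div_pow, ht]; congr 1; field_simp
  have h7 : t / τ = (n + 1) * t := by rw [hτ]; field_simp
  rw [h7]
  calc (↑n + 1) * t / t ^ n * (T ^ n * (3 * ↑n * vb (V n)) * Real.exp (1 / (2 * T ^ 2)) * N)
      = (T ^ n / t ^ n) * ((n + 1) * t * (3 * ↑n * vb (V n)) * Real.exp (1 / (2 * T ^ 2)) * N) := by
        ring
    _ = _ := by rw [h6]; ring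

end Pool.Agent.H85G
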