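import Pool.Agent.H85G.Geo
import Pool.Agent.H85G.Avg

/-! Either the codes of angle `θ` are exponentially larger than Wyner's bound, or all of them
have a small probability of leaving the Voronoi cell. -/

open MeasureTheory Metric Set Filter
open scoped Topology ENNReal InnerProductSpace
open Pool.Agent.H818R2

namespace Pool.Agent.H85G

variable {n : ℕ}

/-- the probability that the noise leaves the cell -/
noncomputable def out (s : ℝ) (C : Finset (V n)) (x : V n) : ℝ := (noise n s).real (cell C x)ᶜ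

/-- near the boundary of the cap of `x` and far from all the codewords -/
def rim (C : Finset (V n)) (a q : ℝ) (x : V n) : Set (V n) :=
  {y | ‖y‖ < 1 ∧ a * ‖y‖ ≤ ⟪x, y⟫_ℝ ∧ ∀ w ∈ C, ⟪w, y⟫_ℝ ≤ q * ‖y‖}

lemma measurableSet_rim (C : Finset (V n)) (a q : ℝ) (x : V n) : MeasurableSet (rim C a q x) := by
  have : rim C a q x = {y | ‖y‖ < 1} ∩ ({y | a * ‖y‖ ≤ ⟪x, y⟫_ℝ} ∩
      ⋂ w ∈ C, {y | ⟪w, y⟫_ℝ ≤ q * ‖y‖}) := by
    ext z; simp [rim]
  rw [this]
  refine MeasurableSet.inter (isOpen_lt continuous_norm continuous_const).measurableSet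
    (MeasurableSet.inter ?_ (Finset.measurableSet_biInter _ fun y _ => ?_))
  · exact (isClosed_le (continuous_const.mul continuous_norm)
      (continuous_const.inner continuous_id)).measurableSet
  · exact (isClosed_le (continuous_const.inner continuous_id)
      (continuous_const.mul continuous_norm)).measurableSet

open Classical in
lemma nbh_vol {C I : Finset (V n)} {θ q B₁ B₂ : ℝ}
    (h1 : ∀ x ∈ C, volume.real {y : V n | ‖y‖ < 1 ∧ q * ‖y‖ ≤ ⟪x, y⟫_ℝ} ≤ B₁)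
    (h2 : ∀ x ∈ I, volume.real (rim C (Real.cos θ) q x) ≤ B₂) :
    volume.real (nbh θ I ∩ ball 0 1) ≤ C.card * B₁ + I.card * B₂ := by
  have hsub : nbh θ I ∩ ball (0 : V n) 1 ⊆
      (⋃ x ∈ C, {y : V n | ‖y‖ < 1 ∧ q * ‖y‖ ≤ ⟪x, y⟫_ℝ}) ∪ ⋃ x ∈ I, rim C (Real.cos θ) q x := by
    rintro y ⟨⟨x, hx, hxy⟩, hy⟩
    rw [mem_ball_zero_iff] at hy
    by_cases h : ∀ w ∈ C, ⟪w, y⟫_ℝ ≤ q * ‖y‖
    · right
      simp only [mem_iUnion]
      exact ⟨x, hx, hy, hxy.le, h⟩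
    · left
      push Not at h
      obtain ⟨w, hw, hwy⟩ := h
      simp only [mem_iUnion]
      exact ⟨w, hw, hy, hwy.le⟩
  have hfin : volume ((⋃ x ∈ C, {y : V n | ‖y‖ < 1 ∧ q * ‖y‖ ≤ ⟪x, y⟫_ℝ}) ∪
      ⋃ x ∈ I, rim C (Real.cos θ) q x) ≠ ⊤ := by
    apply ((measure_mono (t := ball 0 1) _).trans_lt measure_ball_lt_top).ne
    apply union_subset
    · apply iUnion₂_subset
      intro x _ y hy
      rw [mem_ball_zero_iff]; exact hy.1
    · apply iUnion₂_subset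
      intro x _ y hy
      rw [mem_ball_zero_iff]; exact hy.1
  calc volume.real (nbh θ I ∩ ball 0 1)
      ≤ volume.real ((⋃ x ∈ C, {y : V n | ‖y‖ < 1 ∧ q * ‖y‖ ≤ ⟪x, y⟫_ℝ}) ∪
        ⋃ x ∈ I, rim C (Real.cos θ) q x) := measureReal_mono hsub hfin
    _ ≤ volume.real (⋃ x ∈ C, {y : V n | ‖y‖ < 1 ∧ q * ‖y‖ ≤ ⟪x, y⟫_ℝ}) +
        volume.real (⋃ x ∈ I, rim C (Real.cos θ) q x) := measureReal_union_le _ _
    _ ≤ ∑ x ∈ C, volume.real {y : V n | ‖y‖ < 1 ∧ q * ‖y‖ ≤ ⟪x, y⟫_ℝ} +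
        ∑ x ∈ I, volume.real (rim C (Real.cos θ) q x) :=
        add_le_add (measureReal_biUnion_finset_le _ _) (measureReal_biUnion_finset_le _ _)
    _ ≤ ∑ _x ∈ C, B₁ + ∑ _x ∈ I, B₂ := add_le_add (Finset.sum_le_sum h1) (Finset.sum_le_sum h2)
    _ = _ := by rw [Finset.sum_const, Finset.sum_const, nsmul_eq_mul, nsmul_eq_mul]

/-- the constant in the exponent -/
lemma main_ineq [NeZero n] {θ σ T δ q Sq : ℝ} (h0 : 0 < θ) (h1 : θ < Real.pi / 2) (hσ : 0 < σ)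
    (hσT : σ < T) (hδ : 0 < δ)
    (hd1 : T / Real.sin θ * (Real.cos θ + δ - Real.cos θ ^ 2) < 1 - Real.cos θ)
    (hd2 : T / Real.sin θ * (Real.cos θ + δ) < 1) (hq : q = Real.cos θ + δ) (hSq : 0 < Sq)
    (hqS : q ^ 2 + Sq ^ 2 = 1) {r : ℝ} (hr : 0 < r) (hr2 : 2 * r ^ 2 ≤ 1 - Real.cos θ)
    {C I : Finset (V n)} (hC : IsSphCode n θ C) (hIC : I ⊆ C) {η : ℝ} (hη : 0 < η)
    (hI : ∀ x ∈ I, η ≤ out (σ / √n) C x) (hI0 : I.Nonempty)
    (hIc : η * C.card ≤ I.card) :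
    η ≤ sphMax n θ * (3 * (n + 1) / Sq * Sq ^ n +
      3 * n * (n + 1) * (T / Real.sin θ) * Real.exp (1 / (2 * T ^ 2)) * Real.sin θ ^ n *
        Real.exp (-((r * (1 - σ / T)) ^ 2 / (4 * σ ^ 2)) * n)) := by
  have hn : 0 < n := Nat.pos_of_ne_zero (NeZero.ne n)
  have hn0 : (0 : ℝ) < n := by exact_mod_cast hn
  have hS : 0 < Real.sin θ := Real.sin_pos_of_pos_of_lt_pi h0 (by linarith [Real.pi_pos])
  have ha : 0 < Real.cos θ := Real.cos_pos_of_mem_Ioo ⟨by linarith [Real.pi_pos], h1⟩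
  have hT : 0 < T := hσ.trans hσT
  have hsc := Real.sin_sq_add_cos_sq θ
  have ha1 : Real.cos θ < 1 := by nlinarith
  have hhalf : 0 < Real.sin (θ / 2) :=
    Real.sin_pos_of_pos_of_lt_pi (by linarith) (by linarith [Real.pi_pos])
  have hs : 0 < σ / √n := by positivity
  have hIcode : IsSphCode n θ I :=
    ⟨fun x hx => hC.1 x (hIC hx), fun x hx y hy => hC.2 x (hIC hx) y (hIC hy)⟩
  have hl : 1 < T / σ := (one_lt_div hσ).2 hσT
  have hls : T / σ * (σ / √n) = T / √n := by field_simp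
  set E : ℝ := Real.exp (-((r * (1 - σ / T)) ^ 2 / (4 * σ ^ 2)) * n) with hE
  set P : ℝ := 3 * n * (n + 1) * (T / Real.sin θ) * Real.exp (1 / (2 * T ^ 2)) *
    Real.sin θ ^ n with hP
  have hP0 : 0 < P := by positivity
  have hvb := vb_pos (E := V n)
  have hrim : ∀ x ∈ I, volume.real (rim C (Real.cos θ) q x) ≤ P * (E / η) * vb (V n) := by
    intro x hx
    have hx1 := hC.1 x (hIC hx)
    have key := vol_into hn hx1 hS hT (measurableSet_rim C (Real.cos θ) q x)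
      (measurableSet_cell C x) (by
      rintro y ⟨hy1, hy2, hy3⟩
      refine ⟨hy1.le, ?_⟩
      have h2 : Real.cos θ ^ 2 * ‖y‖ ^ 2 ≤ ⟪x, y⟫_ℝ ^ 2 := by
        rw [← mul_pow]; exact pow_le_pow_left₀ (by positivity) hy2 2
      have h3 : ‖y‖ ^ 2 ≤ 1 := pow_le_one₀ (norm_nonneg y) hy1.le
      nlinarith [sq_nonneg (Real.sin θ)]) (by
      rintro y ⟨hy1, hy2, hy3⟩
      exact into_cell hC (hIC hx) ha.le hδ.le (by positivity) (by positivity) hd1 hd2 hy1.le hy2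
        (by rw [← hq]; exact hy3))
    refine key.trans ?_
    rw [← hP]
    apply mul_le_mul_of_nonneg_right _ hvb.le
    apply mul_le_mul_of_nonneg_left _ hP0.le
    have h2 := cell_stronger hC (hIC hx) hr hr2 hs hl
    rw [hls] at h2
    have h3 : Real.exp (-(r * (1 - 1 / (T / σ))) ^ 2 / (4 * (σ / √n) ^ 2)) = E := by
      rw [hE, div_pow, Real.sq_sqrt hn0.le, one_div_div]
      congr 1
      field_simp
    rw [h3] at h2
    rw [le_div_iff₀ hη, mul_comm]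
    exact (mul_le_mul_of_nonneg_right (hI x hx) measureReal_nonneg).trans h2
  have hcone : ∀ x ∈ C, volume.real {y : V n | ‖y‖ < 1 ∧ q * ‖y‖ ≤ ⟪x, y⟫_ℝ} ≤
      3 * (n + 1) / Sq * Sq ^ n * vb (V n) := fun x hx =>
    cone_vol_le hn (hC.1 x hx) (by rw [hq]; linarith) hSq hqS
  have h2 := nbh_vol (θ := θ) hcone hrim
  have h3 := replace hhalf ha1 hIcode
  have hIpos : (0 : ℝ) < I.card := by exact_mod_cast Finset.card_pos.2 hI0
  have h4 : (I.card : ℝ) * vb (V n) ≤ sphMax n θ *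
      (C.card * (3 * (n + 1) / Sq * Sq ^ n * vb (V n)) + I.card * (P * (E / η) * vb (V n))) :=
    h3.trans (mul_le_mul_of_nonneg_left h2 (Nat.cast_nonneg _))
  have h5 : (C.card : ℝ) ≤ I.card / η := by rw [le_div_iff₀ hη]; linarith
  have h6 : (I.card : ℝ) * vb (V n) ≤ sphMax n θ *
      (I.card / η * (3 * (n + 1) / Sq * Sq ^ n * vb (V n)) + I.card * (P * (E / η) * vb (V n))) := by
    refine h4.trans (mul_le_mul_of_nonneg_left ?_ (Nat.cast_nonneg _))
    apply add_le_add_left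
    exact mul_le_mul_of_nonneg_right h5 (by positivity)
  have h7 : sphMax n θ *
      (I.card / η * (3 * (n + 1) / Sq * Sq ^ n * vb (V n)) + I.card * (P * (E / η) * vb (V n))) =
      (sphMax n θ * (3 * (n + 1) / Sq * Sq ^ n + P * E)) / η * (I.card * vb (V n)) := by
    field_simp
  rw [h7] at h6
  have hW : 0 < (I.card : ℝ) * vb (V n) := mul_pos hIpos hvb
  have h6' : 1 * ((I.card : ℝ) * vb (V n)) ≤
      (sphMax n θ * (3 * (n + 1) / Sq * Sq ^ n + P * E)) / η * (I.card * vb (V n)) := by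
    rw [one_mul]; exact h6
  have h8 := le_of_mul_le_mul_right h6' hW
  rwa [one_le_div hη] at h8

end Pool.Agent.H85G
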