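import Pool.Agent.H85G.Conv

/-! The strong converse in high dimensions. -/

open MeasureTheory Metric Set Filter
open scoped Topology ENNReal InnerProductSpace
open Pool.Agent.H818R2

namespace Pool.Agent.H85G

lemma rpow_neg_le {x y : ℝ} (hx : 0 < x) (h : y ≤ Real.log x) (n : ℕ) :
    x ^ (-(n : ℝ) / 2) ≤ Real.exp ((n : ℝ) / 2 * (-y)) := by
  rw [Real.rpow_def_of_pos hx]
  apply Real.exp_le_exp.2
  have hn : (0 : ℝ) ≤ n / 2 := by positivity
  nlinarith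

/-- the bound for the first term -/
lemma t1_le {ε : ℝ} (hε : 0 < ε) (n : ℕ) :
    Real.exp ((n : ℝ) / 2 * (ε * (1 - ε))) * (1 + ε) ^ (-(n : ℝ) / 2) ≤
      Real.exp (-(ε ^ 3 / (2 * (1 + ε))) * n) := by
  have h1 : ε / (1 + ε) ≤ Real.log (1 + ε) := by
    have := Real.one_sub_inv_le_log_of_pos (show 0 < 1 + ε by linarith)
    refine le_trans (le_of_eq ?_) this
    field_simp
    ring
  have h2 := rpow_neg_le (show 0 < 1 + ε by linarith) h1 n
  refine (mul_le_mul_of_nonneg_left h2 (Real.exp_pos _).le).trans (le_of_eq ?_)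
  rw [← Real.exp_add]
  congr 1
  field_simp
  ring

/-- the bound for the second term -/
lemma t2_le {σ ε : ℝ} (hσ : 0 < σ) (hε : 0 < ε) (hε1 : ε < 1) (n : ℕ) :
    Real.exp ((n : ℝ) / 2 * (-(ε / 2 * ((1 + σ ^ 2) * (1 + ε)) / σ ^ 2) +
      ε / 2 / (σ ^ 2 * (1 - ε / 2)))) * (1 - ε / 2) ^ (-(n : ℝ) / 2) ≤
      Real.exp (-((1 + σ ^ 2) / σ ^ 2 * (ε / 4) * ((1 + ε) - 1 / (1 - ε / 2))) * n) := by
  have h1u : 0 < 1 - ε / 2 := by linarith
  have h1 : -(ε / 2 / (1 - ε / 2)) ≤ Real.log (1 - ε / 2) := by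
    have := Real.one_sub_inv_le_log_of_pos h1u
    refine le_trans (le_of_eq ?_) this
    obtain ⟨Q, hQ⟩ : ∃ Q : ℝ, Q = 1 - ε / 2 := ⟨_, rfl⟩
    have hQ0 : Q ≠ 0 := by rw [hQ]; exact h1u.ne'
    have hεQ : ε / 2 = 1 - Q := by rw [hQ]; ring
    rw [← hQ, hεQ]
    field_simp
    ring
  have h2 := rpow_neg_le h1u h1 n
  refine (mul_le_mul_of_nonneg_left h2 (Real.exp_pos _).le).trans (le_of_eq ?_)
  rw [← Real.exp_add]
  congr 1
  have hne : 1 - ε / 2 ≠ 0 := h1u.ne'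
  obtain ⟨Q, hQ⟩ : ∃ Q : ℝ, Q = 1 - ε / 2 := ⟨_, rfl⟩
  have hQ0 : Q ≠ 0 := by rw [hQ]; exact hne
  rw [← hQ]
  field_simp
  ring

lemma w2_pos {σ ε : ℝ} (hσ : 0 < σ) (hε : 0 < ε) (hε1 : ε < 1) :
    0 < (1 + σ ^ 2) / σ ^ 2 * (ε / 4) * ((1 + ε) - 1 / (1 - ε / 2)) := by
  have h1u : 0 < 1 - ε / 2 := by linarith
  have : 0 < (1 + ε) - 1 / (1 - ε / 2) := by
    rw [sub_pos, div_lt_iff₀ h1u]
    nlinarith
  positivity

lemma exists_sigma {θ κ : ℝ} (h0 : 0 < θ) (h1 : θ < Real.pi / 2) (hκ : 0 < κ) :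
    ∃ σ : ℝ, 0 < σ ∧ σ < Real.tan θ ∧
      (1 + σ ^ 2) / σ ^ 2 < (2 : ℝ) ^ κ * (1 / Real.sin θ) ^ 2 := by
  have hS : 0 < Real.sin θ := Real.sin_pos_of_pos_of_lt_pi h0 (by linarith [Real.pi_pos])
  have ha : 0 < Real.cos θ := Real.cos_pos_of_mem_Ioo ⟨by linarith [Real.pi_pos], h1⟩
  have hsc := Real.sin_sq_add_cos_sq θ
  have ht : 0 < Real.tan θ := Real.tan_pos_of_pos_of_lt_pi_div_two h0 h1
  have hval : (1 + Real.tan θ ^ 2) / Real.tan θ ^ 2 = (1 / Real.sin θ) ^ 2 := by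
    rw [Real.tan_eq_sin_div_cos]
    field_simp
    linarith
  have hcont : ContinuousAt (fun σ : ℝ => (1 + σ ^ 2) / σ ^ 2) (Real.tan θ) := by
    apply ContinuousAt.div (by fun_prop) (by fun_prop)
    positivity
  have hlt : (1 + Real.tan θ ^ 2) / Real.tan θ ^ 2 < (2 : ℝ) ^ κ * (1 / Real.sin θ) ^ 2 := by
    rw [hval]
    have : 1 < (2 : ℝ) ^ κ := Real.one_lt_rpow (by norm_num) hκ
    have h2 : 0 < (1 / Real.sin θ) ^ 2 := by positivity
    nlinarith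
  have hev := (hcont.eventually (gt_mem_nhds hlt)).filter_mono
    (nhdsWithin_le_nhds (s := Iio (Real.tan θ)))
  obtain ⟨σ, h2, h3⟩ := (hev.and (Ioo_mem_nhdsLT ht)).exists
  exact ⟨σ, h3.1, h3.2, h2⟩

lemma exists_eps {κ : ℝ} (hκ : 0 < κ) :
    ∃ ε : ℝ, 0 < ε ∧ ε < 1 ∧ (1 + ε) * Real.exp ε < (2 : ℝ) ^ κ := by
  have hcont : ContinuousAt (fun ε : ℝ => (1 + ε) * Real.exp ε) 0 := by fun_prop
  have hlt : (1 + (0 : ℝ)) * Real.exp 0 < (2 : ℝ) ^ κ := by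
    rw [add_zero, Real.exp_zero, mul_one]
    exact Real.one_lt_rpow (by norm_num) hκ
  have hev := (hcont.eventually (gt_mem_nhds hlt)).filter_mono
    (nhdsWithin_le_nhds (s := Ioi (0 : ℝ)))
  obtain ⟨ε, h2, h3⟩ := (hev.and (Ioo_mem_nhdsGT zero_lt_one)).exists
  exact ⟨ε, h3.1, h3.2, h2⟩

/-- Codes exponentially larger than Wyner's bound are not reliable. -/
theorem strong_converse {θ κ : ℝ} (h0 : 0 < θ) (h1 : θ < Real.pi / 2) (hκ : 0 < κ) :
    ∃ σ : ℝ, 0 < σ ∧ σ < Real.tan θ ∧ ∃ c : ℝ, 0 < c ∧ ∀ᶠ n : ℕ in atTop,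
      ∀ C : Finset (EuclideanSpace ℝ (Fin n)), (∀ x ∈ C, ‖x‖ = 1) → C.Nonempty →
        (2 : ℝ) ^ (κ * n) * (1 / Real.sin θ) ^ n ≤ C.card →
        ∀ D : EuclideanSpace ℝ (Fin n) → EuclideanSpace ℝ (Fin n), Measurable D →
          1 - (2 : ℝ) ^ (-c * n) ≤ avgErr n σ C D := by
  have hS : 0 < Real.sin θ := Real.sin_pos_of_pos_of_lt_pi h0 (by linarith [Real.pi_pos])
  obtain ⟨σ, hσ, hσθ, hσ2⟩ := exists_sigma h0 h1 hκ
  obtain ⟨ε, hε, hε1, hε2⟩ := exists_eps (show 0 < κ / 2 by positivity)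
  set w1 : ℝ := ε ^ 3 / (2 * (1 + ε)) with hw1
  set w2 : ℝ := (1 + σ ^ 2) / σ ^ 2 * (ε / 4) * ((1 + ε) - 1 / (1 - ε / 2)) with hw2
  have hw1p : 0 < w1 := by positivity
  have hw2p : 0 < w2 := w2_pos hσ hε hε1
  set w3 : ℝ := Real.log 2 * (κ / 4) with hw3
  have hlog2 : 0 < Real.log 2 := Real.log_pos (by norm_num)
  have hw3p : 0 < w3 := by positivity
  set w : ℝ := min w1 (min w2 w3) with hw
  have hwp : 0 < w := lt_min hw1p (lt_min hw2p hw3p)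
  refine ⟨σ, hσ, hσθ, w / (2 * Real.log 2), by positivity, ?_⟩
  have hlim : Tendsto (fun n : ℕ => Real.exp (-(w / 2)) ^ n) atTop (𝓝 0) :=
    tendsto_pow_atTop_nhds_zero_of_lt_one (Real.exp_pos _).le (by
      rw [Real.exp_lt_one_iff]; linarith)
  filter_upwards [eventually_ge_atTop 1, hlim.eventually (gt_mem_nhds (show (0 : ℝ) < 1 / 3 by
    norm_num))] with n hn hsmall C hC hC0 hcard D hD
  have hn0 : (0 : ℝ) < n := by exact_mod_cast hn
  have hCpos : (0 : ℝ) < C.card := by exact_mod_cast Finset.card_pos.2 hC0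
  have key := correct_bound (σ := σ) (ε := ε) (u := ε / 2) (R2 := (1 + σ ^ 2) * (1 + ε))
    (by omega : 0 < n) hσ hε (by positivity) (by positivity) (by linarith) hC hC0 hD
  have e1 := t1_le hε n
  have e2 := t2_le hσ hε hε1 n
  rw [← hw1] at e1
  rw [← hw2] at e2
  have e3 : ((1 + σ ^ 2) * (1 + ε) / σ ^ 2) ^ ((n : ℝ) / 2) * Real.exp ((n : ℝ) / 2 * ε) / C.card
      ≤ Real.exp (-w3 * n) := by
    rw [div_le_iff₀ hCpos]
    have a1 : Real.exp ((n : ℝ) / 2 * ε) = Real.exp ε ^ ((n : ℝ) / 2) := by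
      rw [← Real.exp_mul]; ring_nf
    rw [a1, ← Real.mul_rpow (by positivity) (by positivity)]
    have a2 : (1 + σ ^ 2) * (1 + ε) / σ ^ 2 * Real.exp ε ≤
        (2 : ℝ) ^ (3 * κ / 2) * (1 / Real.sin θ) ^ 2 := by
      calc (1 + σ ^ 2) * (1 + ε) / σ ^ 2 * Real.exp ε
          = ((1 + σ ^ 2) / σ ^ 2) * ((1 + ε) * Real.exp ε) := by ring
        _ ≤ ((2 : ℝ) ^ κ * (1 / Real.sin θ) ^ 2) * (2 : ℝ) ^ (κ / 2) :=
            mul_le_mul hσ2.le hε2.le (by positivity) (by positivity)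
        _ = (2 : ℝ) ^ (3 * κ / 2) * (1 / Real.sin θ) ^ 2 := by
            rw [mul_right_comm, ← Real.rpow_add (by norm_num)]
            congr 2; ring
    have a3 := Real.rpow_le_rpow (by positivity) a2 (show (0 : ℝ) ≤ (n : ℝ) / 2 by positivity)
    refine a3.trans ?_
    have a4 : ((2 : ℝ) ^ (3 * κ / 2) * (1 / Real.sin θ) ^ 2) ^ ((n : ℝ) / 2) =
        (2 : ℝ) ^ (3 * κ / 4 * n) * (1 / Real.sin θ) ^ n := by
      rw [Real.mul_rpow (by positivity) (by positivity), ← Real.rpow_mul (by norm_num),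
        ← Real.rpow_natCast (1 / Real.sin θ) 2, ← Real.rpow_mul (by positivity),
        ← Real.rpow_natCast (1 / Real.sin θ) n]
      congr 2
      · ring
      · push_cast; ring
    rw [a4]
    have a5 : Real.exp (-w3 * n) = (2 : ℝ) ^ (-(κ / 4) * n) := by
      rw [Real.rpow_def_of_pos (by norm_num), hw3]; congr 1; ring
    calc (2 : ℝ) ^ (3 * κ / 4 * n) * (1 / Real.sin θ) ^ n
        = Real.exp (-w3 * n) * ((2 : ℝ) ^ (κ * n) * (1 / Real.sin θ) ^ n) := by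
          rw [a5, ← mul_assoc, ← Real.rpow_add (by norm_num)]
          congr 2; ring
      _ ≤ _ := mul_le_mul_of_nonneg_left hcard (Real.exp_pos _).le
  have b1 : Real.exp (-w1 * n) ≤ Real.exp (-w * n) := by
    apply Real.exp_le_exp.2
    have := min_le_left w1 (min w2 w3)
    nlinarith
  have b2 : Real.exp (-w2 * n) ≤ Real.exp (-w * n) := by
    apply Real.exp_le_exp.2
    have := (min_le_right w1 (min w2 w3)).trans (min_le_left _ _)
    nlinarith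
  have b3 : Real.exp (-w3 * n) ≤ Real.exp (-w * n) := by
    apply Real.exp_le_exp.2
    have := (min_le_right w1 (min w2 w3)).trans (min_le_right _ _)
    nlinarith
  have b4 : (2 : ℝ) ^ (-(w / (2 * Real.log 2)) * n) = Real.exp (-(w / 2)) ^ n := by
    rw [Real.rpow_def_of_pos (by norm_num), ← Real.exp_nat_mul]
    congr 1
    field_simp
  have b5 : Real.exp (-w * n) = Real.exp (-(w / 2)) ^ n * Real.exp (-(w / 2)) ^ n := by
    rw [← Real.exp_nat_mul, ← Real.exp_add]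
    congr 1
    ring
  have b6 : 0 < Real.exp (-(w / 2)) ^ n := by positivity
  have b7 : 3 * Real.exp (-w * n) ≤ Real.exp (-(w / 2)) ^ n := by
    rw [b5]; nlinarith
  rw [b4]
  linarith

end Pool.Agent.H85G
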